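import Pool.Agent.W425.MM.Defs
import Pool.Agent.W425.SG.Fin
import Pool.Agent.W425.SV.Main

set_option autoImplicit false

/-! Project MM, part A4: the root, all entries of `a` positive. -/

namespace Pool.Agent.W425.MM

open MvPolynomial Pool.Agent.H628R4.TZ Pool.Agent.H628R4.TP MeasureTheory Set Filter Topology
open Pool.Agent.W425.SG Pool.Agent.W425.SV
open Pool.Agent.W425.SM hiding Φ_XJ Φ_kerP yz_tendsto bdry_lim ker_lim Zt

variable {r N : ℕ}

/-- every variable occurs -/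
lemma exists_occ (v : Fin r → Fin N → ℕ) (J : Finset (Fin r)) (hJ : J.card = N)
    (hI : LinearIndependent ℚ (fun j : J => (fun i => (v j i : ℚ) : Fin N → ℚ))) (i : Fin N) :
    ∃ j ∈ J, v j i ≠ 0 := by
  by_contra hcon
  push Not at hcon
  have hcard : Fintype.card J = Module.finrank ℚ (Fin N → ℚ) := by simp [hJ]
  have hne : Nonempty J := by
    have : 0 < J.card := by
      rw [hJ]
      exact i.pos
    obtain ⟨j, hj⟩ := Finset.card_pos.1 this
    exact ⟨⟨j, hj⟩⟩
  have hspan := hI.span_eq_top_of_card_eq_finrank' hcard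
  have h1 : ∀ x ∈ Submodule.span ℚ (Set.range (fun j : J => (fun i => (v j i : ℚ) : Fin N → ℚ))),
      x i = 0 := by
    intro x hx
    refine Submodule.span_induction (p := fun x _ => x i = 0) ?_ ?_ ?_ ?_ hx
    · rintro _ ⟨j, rfl⟩
      simp [hcon j j.2]
    · rfl
    · intro x y _ _ hx hy
      simp [hx, hy]
    · intro a x _ hx
      simp [hx]
  have h2 := h1 (Pi.single i 1) (by rw [hspan]; trivial)
  simp at h2

lemma hk_of (v : Fin r → Fin N → ℕ) (J : Finset (Fin r)) (hJ : J.card = N)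
    (hI : LinearIndependent ℚ (fun j : J => (fun i => (v j i : ℚ) : Fin N → ℚ)))
    (hNB : ∀ i, NB v J i) (κ : Fin r → ℕ) (i : Fin N) (hκ : ∑ j, κ j * v j i = 1) :
    (∏ j ∈ J, X j : MvPolynomial (Fin r) ℂ) ∈
      Ideal.span {p : MvPolynomial (Fin r) ℂ | ∃ j, 0 < v j i ∧ p = X j + C ((κ j : ℕ) : ℂ)} := by
  classical
  -- the unique index
  have h1 : ∀ j j', κ j * v j i ≠ 0 → κ j' * v j' i ≠ 0 → j = j' := by
    intro j j' hj hj'
    by_contra hne
    have h2 := Finset.add_le_sum (f := fun j => κ j * v j i) (fun _ _ => Nat.zero_le _)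
      (Finset.mem_univ j) (Finset.mem_univ j') hne
    have h2' : κ j * v j i + κ j' * v j' i ≤ ∑ j, κ j * v j i := h2
    omega
  by_cases hex : ∃ j ∈ J, 0 < v j i ∧ κ j = 0
  · obtain ⟨j, hj, hv, hk⟩ := hex
    have h2 : (X j + C ((κ j : ℕ) : ℂ) : MvPolynomial (Fin r) ℂ) = X j := by
      rw [hk]
      simp
    have h3 : (X j : MvPolynomial (Fin r) ℂ) ∈ Ideal.span {p : MvPolynomial (Fin r) ℂ | ∃ j,
        0 < v j i ∧ p = X j + C ((κ j : ℕ) : ℂ)} :=
      Ideal.subset_span ⟨j, hv, h2.symm⟩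
    rw [← Finset.mul_prod_erase J _ hj]
    exact Ideal.mul_mem_right _ _ h3
  · exfalso
    push Not at hex
    obtain ⟨j0, hj0, hv0⟩ := exists_occ v J hJ hI i
    have hk0 := hex j0 hj0 (Nat.pos_of_ne_zero hv0)
    have hne0 : κ j0 * v j0 i ≠ 0 := mul_ne_zero hk0 hv0
    refine hNB i ⟨j0, hj0, ?_, fun j hj hne => ?_⟩
    · have h2 := Finset.single_le_sum (f := fun j => κ j * v j i) (fun _ _ => Nat.zero_le _)
        (Finset.mem_univ j0)
      have h2' : κ j0 * v j0 i ≤ 1 := by rw [← hκ]; exact h2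
      have h3 : v j0 i ≤ κ j0 * v j0 i := Nat.le_mul_of_pos_left _ (Nat.pos_of_ne_zero hk0)
      have h4 := Nat.pos_of_ne_zero hv0
      omega
    · by_contra hv
      have hk := hex j hj (Nat.pos_of_ne_zero hv)
      exact hne (h1 j j0 (mul_ne_zero hk hv) hne0)

theorem a4 (hA2 : TaskA2) (hA3 : TaskA3) : TaskA4 := by
  intro r N v θ hθ loc p hR a g hN ha hg hmin J hJ hface hI hAdm hNB
  obtain ⟨c, hc, hlim⟩ := hA3 v θ hθ a g hN ha hg hmin J hJ hface hI hAdm
  obtain ⟨K0, s0, hK0, hs0, hkill⟩ := hA2 v θ loc p hR (∏ j ∈ J, X j)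
    (fun κ i h => hk_of v J hJ hI hNB κ i h)
  set α : ℝ := -1 with hα
  set K : ℝ := (2 + |α|) * K0 + 1 with hK
  have hKpos : 0 < K := by positivity
  have hev : ∀ᶠ m in atTop, dl m ^ 2 * K0 < 1 ∧ ((dl m ^ 3 + dl m) * K0 < -α) := by
    have h1 : Tendsto (fun m => dl m ^ 2 * K0) atTop (𝓝 (0 ^ 2 * K0)) :=
      (dl_tendsto.pow 2).mul_const K0
    have h2 : Tendsto (fun m => (dl m ^ 3 + dl m) * K0) atTop (𝓝 ((0 ^ 3 + 0) * K0)) :=
      ((dl_tendsto.pow 3).add dl_tendsto).mul_const K0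
    have h3 : (0:ℝ) ^ 2 * K0 = 0 := by ring
    have h4 : ((0:ℝ) ^ 3 + 0) * K0 = 0 := by ring
    rw [h3] at h1
    rw [h4] at h2
    have h5 := h1.eventually (gt_mem_nhds one_pos)
    filter_upwards [h5, h2.eventually (gt_mem_nhds (show (0:ℝ) < -α by rw [hα]; norm_num))]
      with m hm hm'
    exact ⟨hm, hm'⟩
  set c' : ℂ := (-1) ^ J.card * c with hc'
  have hc'0 : c' ≠ 0 := mul_ne_zero (pow_ne_zero _ (by norm_num)) hc
  obtain ⟨Q, hQ⟩ := limit_poly'
    (fun m => PeK v (yzH v θ K α m) (dl m ^ 4) (∏ j ∈ J, X j) p) p.natDegree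
    (fun m => PeK_natDegree _ _ _ _ _)
    (fun s => p.eval (s : ℂ) * (c' / ((g : ℂ) * s + ((∑ i, a i : ℕ) : ℂ)))) s0 (by
      intro s hs
      have hs' : 0 < s := hs0.trans_le hs
      have h1 : Tendsto (fun m : ℕ => p.eval (s : ℂ) *
          Φ (ph (dl m ^ 4)) ∅ (lm (N := N) s) (av v) (yzH v θ K α m) (∏ j ∈ J, X j)) atTop
          (𝓝 (p.eval (s : ℂ) * (c' / ((g : ℂ) * s + ((∑ i, a i : ℕ) : ℂ))))) := by
        refine Tendsto.const_mul _ ?_
        simp only [Φ_XJ]
        have h2 := (hlim K α s hKpos (by rw [hα]; norm_num) hs').const_mul ((-1 : ℂ) ^ J.card)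
        rw [hc', mul_div_assoc]
        exact h2
      refine h1.congr' ?_
      filter_upwards [hev] with m hm
      refine PeK_eval v _ _ _ p s (pow_pos (dl_pos m) 4) hs' ?_
      have hyz : yzH v θ K α m = fun j => -(K * dl m) - (α * dl m) * ∑ i, (v j i : ℝ) -
        (dl m ^ 2) * θ j := by
        funext j
        rfl
      rw [hyz]
      have hd := dl_pos m
      have hd1 := dl_le m
      have hd2 : 0 < dl m ^ 2 := pow_pos hd 2
      have hd2' : dl m ^ 2 ≤ dl m := by nlinarith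
      have hd4' : dl m ^ 4 ≤ dl m := by
        have : dl m ^ 4 = dl m ^ 2 * dl m ^ 2 := by ring
        rw [this]
        nlinarith
      refine hkill _ (pow_pos hd 4) _ hd2 ?_ _ ?_ _ ?_ s hs
      · have h5 : dl m ^ 4 * K0 = dl m ^ 2 * (dl m ^ 2 * K0) := by ring
        rw [h5]
        nlinarith [hm.1]
      · intro _
        have h5 : (dl m ^ 4 + dl m ^ 2) * K0 = dl m * ((dl m ^ 3 + dl m) * K0) := by ring
        rw [h5]
        nlinarith [hm.2]
      · rw [abs_mul, abs_of_pos hd, hK]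
        have h3 : (dl m ^ 4 + |α| * dl m + dl m ^ 2) * K0 ≤ (dl m + |α| * dl m + dl m) * K0 :=
          mul_le_mul_of_nonneg_right (by linarith) hK0
        nlinarith)
  -- the polynomial identity
  have hgC : (g : ℂ) ≠ 0 := by exact_mod_cast hg.ne'
  have hden : ∀ s : ℝ, 0 < s → ((g : ℂ) * s + ((∑ i, a i : ℕ) : ℂ)) ≠ 0 := by
    intro s hs
    have h1 : (0:ℝ) < (g : ℝ) * s + ((∑ i, a i : ℕ) : ℝ) := by
      have : (0:ℝ) < (g : ℝ) := by exact_mod_cast hg
      positivity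
    exact_mod_cast h1.ne'
  have hpoly : p * Polynomial.C c' =
      Q * (Polynomial.C (g : ℂ) * Polynomial.X + Polynomial.C (((∑ i, a i : ℕ) : ℂ))) := by
    refine Polynomial.eq_of_infinite_eval_eq _ _ ?_
    refine Set.Infinite.mono (s := (fun s : ℝ => (s : ℂ)) '' Set.Ici s0) ?_
      ((Set.Ici_infinite s0).image Complex.ofReal_injective.injOn)
    rintro _ ⟨s, hs, rfl⟩
    have h1 := hQ s hs
    have h2 := hden s (hs0.trans_le hs)
    simp only [Set.mem_ofPred_eq, Polynomial.eval_mul, Polynomial.eval_C, Polynomial.eval_add,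
      Polynomial.eval_X]
    rw [← h1]
    field_simp
  have h3 := congrArg (Polynomial.eval (-(((∑ i, a i : ℕ) : ℂ) / g))) hpoly
  simp only [Polynomial.eval_mul, Polynomial.eval_C, Polynomial.eval_add,
    Polynomial.eval_X] at h3
  have h4 : (g : ℂ) * -(((∑ i, a i : ℕ) : ℂ) / g) + ((∑ i, a i : ℕ) : ℂ) = 0 := by
    field_simp
    ring
  rw [h4, mul_zero] at h3
  exact (mul_eq_zero.1 h3).resolve_right hc'0

end Pool.Agent.W425.MM
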