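import Pool.Agent.W425.MM.Fin0
import Pool.Agent.W425.MM.A4
import Pool.Agent.W318.MM.A2
import Pool.Agent.W554.MM.A3
import Pool.Agent.W571.MM.A5
import Pool.Agent.W398.MM.A6
import Pool.Agent.W67.MM.B1
import Pool.Agent.W688.MM.A1
import Pool.Agent.W749.NM.Stm

set_option autoImplicit false

/-! Project MM: the final theorems. -/

namespace Pool.Agent.W425.MM

open MvPolynomial Pool.Agent.H628R4.TZ Pool.Agent.H628R4.TP Pool.Agent.W425.SM
  Pool.Agent.W425.SG Pool.Agent.W422.GC Pool.Agent.W425.ND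
open Pool.Agent.W428.MOT (K0 MK Pt Constr cls Lu ratRing sp amin gbar dgbar cb Jet arc)
open Pool.Agent.W375.MG (zetaG zetaW zetaOrd Good JetG good_one good_units zetaW_eq zetaOrd_eq)
open Pool.Agent.W749.NM (zetaN JetN)
open Pool.Agent.W426.SM (gord ford IsRay face)
open Pool.Agent.W63.MTFin (C_mem)

variable {r N : ℕ}

theorem a5 : TaskA5 := Pool.Agent.W571.MM.a5 Pool.Agent.W688.MM.a1
  (a4 Pool.Agent.W318.MM.a2 Pool.Agent.W554.MM.taskA3)

/-- **Main theorem**, for all the motivic zeta functions. -/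
theorem main {k : Type} [Field k] [Algebra k ℂ] (hr : 1 ≤ r) (v : Fin r → Fin N → ℕ)
    (c : Fin r → k) (hv : Function.Injective v)
    (hnd : Nondeg v (fun j => algebraMap k ℂ (c j))) (loc : Prop) (hB : NoB1 v loc) :
    ∃ S : Finset (ℤ × ℤ),
      (∀ p ∈ S, p.1 < 0 ∧ 0 < p.2 ∧ ∀ b : Polynomial ℂ, b.eval (-1) = 0 →
        UnitEq loc (spa v (fun j => algebraMap k ℂ (c j))) b →
          ∃ i : ℤ, b.eval ((p.1 : ℂ) / p.2 - i) = 0) ∧
      ∀ (K : Type) [Field K] [Algebra k K] (W : Set (Pt K (Fin N))) (E : Set (AlgebraicClosure K)),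
        Constr W → Good E → zetaG (spa v (fun j => algebraMap k K (c j))) W E ∈ ratRing K S := by
  have hne : NeZero r := ⟨by omega⟩
  obtain ⟨S, hS, hz⟩ := Mot.fin v (show 0 < r by omega)
  refine ⟨S, fun p hp => ?_, fun K _ _ W E hW hE => ?_⟩
  · rcases hS p hp with rfl | ⟨a, ha, hg, rfl⟩
    · refine ⟨by norm_num, by norm_num, fun b hb _ => ⟨0, ?_⟩⟩
      have h1 : (((-1 : ℤ) : ℂ) / ((1 : ℤ) : ℂ) - ((0 : ℤ) : ℂ)) = -1 := by
        push_cast
        ring
      rw [h1, hb]
    · have hpos : 0 < ∑ i, a i := by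
        by_contra hcon
        refine ha.1 (funext fun i => ?_)
        exact Finset.sum_eq_zero_iff.1 (Nat.eq_zero_of_not_pos hcon) i (Finset.mem_univ i)
      refine ⟨?_, Int.natCast_pos.2 hg, fun b hb hU => ?_⟩
      · simp only [Left.neg_neg_iff]
        exact_mod_cast hpos
      · obtain ⟨K', hK'⟩ := relAll parts loc v _ hv hnd b hU
        exact root_int a5 loc v b K' hK' hb hB a ha hg
  · have hk : CharZero k := RingHom.charZero (algebraMap k ℂ)
    have hK : CharZero K := charZero_of_injective_algebraMap (algebraMap k K).injective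
    rw [spa_eq_sp]
    exact hz K _ (nonG_of Pool.Agent.W67.MM.taskB1 k K v c (by omega) hnd) W E hW hE

/-- the functional equation with the Weyl algebra -/
theorem of_global (v : Fin r → Fin N → ℕ) (hr : 1 ≤ r) (a : Fin r → ℂ)
    (hv : Function.Injective v) (hv0 : ∀ j, v j ≠ 0) (hnd : Nondeg v a) (b : Polynomial ℂ)
    (hb : IsBFunction (spa v a) b) : b.eval (-1) = 0 ∧ UnitEq False (spa v a) b := by
  have : NeZero r := ⟨by omega⟩
  exact ⟨(Pool.Agent.W368.SL.taskL1 (spa v a) b (spa_ne_zero hv a hnd) (spa_const v hv0 a)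
    (isLocal hb)).1, unitEq_of_global _ b hb⟩

/-- the local functional equation -/
theorem of_local (v : Fin r → Fin N → ℕ) (hr : 1 ≤ r) (a : Fin r → ℂ)
    (hv : Function.Injective v) (hv0 : ∀ j, v j ≠ 0) (hnd : Nondeg v a) (b : Polynomial ℂ)
    (hb : Pool.Agent.H628R4.TP.IsLocalBFunction (spa v a) b) :
    b.eval (-1) = 0 ∧ UnitEq True (spa v a) b := by
  have : NeZero r := ⟨by omega⟩
  obtain ⟨h1, c, P, hc, hP⟩ := Pool.Agent.W368.SL.taskL1 (spa v a) b
    (spa_ne_zero hv a hnd) (spa_const v hv0 a) (Pool.Agent.W425.SL.toSL hb)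
  exact ⟨h1, c, P, hc, fun h => absurd trivial h, hP⟩

theorem constr_pt {K : Type} [Field K] (x : Fin N → K) :
    Constr ({fun i => algebraMap K (AlgebraicClosure K) (x i)} : Set (Pt K (Fin N))) := by
  classical
  have h1 : ∀ s : Finset (Fin N), Constr {z : Pt K (Fin N) |
      ∀ i ∈ s, z i = algebraMap K (AlgebraicClosure K) (x i)} := by
    intro s
    induction s using Finset.induction_on with
    | empty =>
      have h2 := Constr.zero (K := K) (ι := Fin N) 0
      simpa using h2
    | insert i s hi ih =>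
      have h2 := (Constr.zero (K := K) (X i - C (x i) : MvPolynomial (Fin N) K)).inter ih
      convert h2 using 1
      ext z
      simp [sub_eq_zero]
  have h2 := h1 Finset.univ
  convert h2 using 1
  ext z
  simp [funext_iff]

/-- the local zeta function at a point -/
theorem zeta_mem {K : Type} [Field K] (f : MvPolynomial (Fin N) K) (x : Fin N → K)
    (S : Set (ℤ × ℤ)) (h : ∀ (W : Set (Pt K (Fin N))) (E : Set (AlgebraicClosure K)),
      Constr W → Good E → zetaG f W E ∈ ratRing K S) :
    Pool.Agent.W428.MOT.zeta f x ∈ ratRing K S := by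
  have h1 := h _ {1} (constr_pt x) good_one
  set Z := zetaG f {fun i => algebraMap K (AlgebraicClosure K) (x i)} {1} with hZ
  have h2 : Pool.Agent.W428.MOT.zeta f x = Z - PowerSeries.C (PowerSeries.coeff 0 Z) := by
    ext d
    rw [map_sub, PowerSeries.coeff_C]
    by_cases hd : d = 0
    · subst hd
      rw [if_pos rfl, sub_self, Pool.Agent.W428.MOT.zeta, PowerSeries.coeff_mk, if_pos rfl]
    · rw [if_neg hd, sub_zero, Pool.Agent.W428.MOT.zeta, PowerSeries.coeff_mk, if_neg hd, hZ,
        zetaG, PowerSeries.coeff_mk]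
      have h3 : Jet f x d = JetG f {fun i => algebraMap K (AlgebraicClosure K) (x i)} {1} d := by
        ext z
        simp only [Jet, JetG, Set.mem_ofPred_eq, Set.mem_singleton_iff, funext_iff]
        refine and_congr_right fun _ => ?_
        constructor
        · intro h
          refine ⟨fun j hj => ?_, ?_⟩
          · rw [h j hj.le, if_neg (by omega)]
          · rw [h d le_rfl, if_pos rfl]
        · rintro ⟨h1, h2⟩ j hj
          by_cases h : j = d
          · rw [h, h2, if_pos rfl]
          · rw [h1 j (by omega), if_neg h]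
      rw [h3]
  rw [h2]
  exact (ratRing K S).sub_mem h1 (C_mem _ _)

/-- the naive local zeta function at a point -/
theorem zetaN_mem {K : Type} [Field K] (f : MvPolynomial (Fin N) K) (x : Fin N → K)
    (S : Set (ℤ × ℤ)) (h : ∀ (W : Set (Pt K (Fin N))) (E : Set (AlgebraicClosure K)),
      Constr W → Good E → zetaG f W E ∈ ratRing K S) :
    zetaN f x ∈ ratRing K S := by
  have h1 := h _ {a | a ≠ 0} (constr_pt x) good_units
  set Z := zetaG f {fun i => algebraMap K (AlgebraicClosure K) (x i)} {a | a ≠ 0} with hZ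
  have h2 : zetaN f x = PowerSeries.C (((Lu K) ^ (-(N : ℤ)) : (MK K)ˣ) : MK K) *
      (Z - PowerSeries.C (PowerSeries.coeff 0 Z)) := by
    unfold zetaN
    congr 1
    ext d
    rw [map_sub, PowerSeries.coeff_C]
    by_cases hd : d = 0
    · subst hd
      rw [if_pos rfl, sub_self, PowerSeries.coeff_mk, if_pos rfl]
    · rw [if_neg hd, sub_zero, PowerSeries.coeff_mk, if_neg hd, hZ,
        zetaG, PowerSeries.coeff_mk]
      have h3 : JetN f x d = JetG f {fun i => algebraMap K (AlgebraicClosure K) (x i)}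
          {a | a ≠ 0} d := by
        ext z
        simp only [JetN, JetG, Set.mem_ofPred_eq, Set.mem_singleton_iff, funext_iff]
      rw [h3]
  rw [h2]
  exact (ratRing K S).mul_mem (C_mem _ _) ((ratRing K S).sub_mem h1 (C_mem _ _))

end Pool.Agent.W425.MM
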