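import Pool.Agent.W375.MG.Out

/-!
# Project MM: motivic zeta functions of nondegenerate polynomials

Adapted from `Pool.Agent.W375.MG` (`StC`, `Sum`, `Fin`): the affine independence of the exponents
was used only for the nondegeneracy.
-/

set_option autoImplicit false

namespace Pool.Agent.W425.MM.Mot

open MvPolynomial
open Pool.Agent.W428.MOT Pool.Agent.W749.MT Pool.Agent.W749.MT.StC Pool.Agent.W375.MT
open Pool.Agent.W375.MG hiding stC sum fin
open Pool.Agent.W426.SM (gord ford IsRay face)
open Pool.Agent.W63.MTFin (mapMeas geo_mul geo_mem X_mem C_mem poly_mem geo_sum L_mul ev ev_X_pow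
  rat_mem)

/-- nondegeneracy over the algebraic closure -/
def NonG {K : Type} [Field K] {n r : ℕ} (m : Fin r → Fin n → ℕ) (c : Fin r → K) : Prop :=
  ∀ (u : Fin n → ℕ) (z : Fin n → AlgebraicClosure K),
    (∀ i, (∃ j ∈ amin m u, m j i ≠ 0) → z i ≠ 0) → gbar m (cb c) (amin m u) z = 0 →
    ∃ i, dgbar m (cb c) (amin m u) i z ≠ 0

/-- (STC) -/
theorem stC (h1 : S_Free) (h2 : S_Sub) (h3 : S_Tay) {K : Type} [Field K]
    [CharZero K] {n r : ℕ} {R : Type} [CommRing R] (M : Meas K R)
    (A : Fin n → ℕ) (m : Fin r → Fin n → ℕ) (c : Fin r → K) (e : ℕ)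
    {W : Set (Pt K (Fin n))} (hW : Constr W) {E : Set (AlgebraicClosure K)} (hE : Good E)
    (hNon : NonG m c) (he : 0 < e)
    (J : Finset (Fin n)) (N : ℕ) (u : Fin n → ℕ) (hA : Adm J u) (l : ℕ) (hl : 1 ≤ l)
    (hf : ford A m e u + e * l = N) :
    M.χ _ (Y0 (0 : Fin n → K) N u ∩ {y | wb u y ∈ W ∧
        (∀ k < l, PowerSeries.coeff k (gser m (cb c) (del m u) (arc y)) = 0) ∧
        (∏ i, y (i, 0) ^ A i) *
          (PowerSeries.coeff l (gser m (cb c) (del m u) (arc y))) ^ e ∈ E}) * M.L ^ l =
      M.χ _ (GB1 A m c e W E J (amin m u)) *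
        (M.L - 1) ^ ((free A m J (amin m u)).filter fun i => u i ≤ N).card *
        M.L ^ ((free A m J (amin m u)).filter fun i => ¬ u i ≤ N).card *
        M.L ^ (∑ i, (2 * N + 1 - u i)) := by
  classical
  set τ := amin m u with hτ
  set δ := del m u with hδ
  have hlN : l ≤ N := by
    have : l ≤ e * l := Nat.le_mul_of_pos_left _ he
    omega
  have hfN : ford A m e u ≤ N := by omega
  set V : Set (Pt K (Fin n × Fin (2 * N + 1 + 1))) :=
    {y | wb u y ∈ W ∧ (∀ k < l, PowerSeries.coeff k (gser m (cb c) δ (arc y)) = 0) ∧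
        (∏ i, y (i, 0) ^ A i) *
          (PowerSeries.coeff l (gser m (cb c) δ (arc y))) ^ e ∈ E} with hV
  have hWC : ∀ i0, V = CG A m c e δ W E u l i0 l := by
    intro i0
    have hv : ∀ (y : Pt K (Fin n × Fin (2 * N + 1 + 1))) (k : ℕ), k ≤ l →
        vv m c δ i0 l y k = PowerSeries.coeff k (gser m (cb c) δ (arc y)) := fun y k hk =>
      if_pos hk
    ext y
    constructor
    · rintro ⟨hw, h5, h6⟩
      refine ⟨fun k hk => ?_, hw, ?_⟩
      · rw [hv y k hk.le]
        exact h5 k hk
      · rw [hv y l le_rfl]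
        exact h6
    · rintro ⟨h5, hw, h6⟩
      refine ⟨hw, fun k hk => ?_, ?_⟩
      · rw [← hv y k hk.le]
        exact h5 k hk
      · rw [← hv y l le_rfl]
        exact h6
  have hWc : Constr V := by
    refine Constr.and (constr_W hW _ fun i => isPF_wb u i) (Constr.and ?_ (hE.constr _ ?_))
    · exact Constr.allLt l fun k _ => Constr.eqz (IsPA_gser m c δ k)
    · exact (IsPF_prod A fun i => (i, 0)).mul ((IsPA_gser m c δ l).pow e)
  have e1 : M.χ _ (Y0 (0 : Fin n → K) N u ∩ V) = ∑ i0, M.χ _ ((Y0 (0 : Fin n → K) N u ∩ V) ∩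
      QQ m c τ (fun i => (i, (0 : Fin (2 * N + 1 + 1)))) i0) := by
    refine χ_cover M _ _ ((Pool.Agent.W749.MT.constr_Y0 0 N u).inter hWc)
      (fun i0 => constr_QQ m c τ _ i0)
      (fun a b h => QQ_disjoint m c τ _ a b h) ?_
    rintro y ⟨⟨hy1, hy2, hy3⟩, hyW, hy4, hy5⟩
    refine QQ_cover m c τ _ y ?_
    refine hNon u (fun i => y (i, 0)) ?_ ?_
    · rintro i ⟨j, hj, hm⟩
      refine hy2 i (le_of_not_free A m e J u N he hA hfN i ?_)
      intro hcf
      exact hm (((mem_free A m J τ i).1 hcf).2.2 j hj)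
    · have := hy4 0 hl
      rw [(h3 m (cb c) δ (arc y)).1, hδ, filter_del] at this
      simp only [Pool.Agent.W749.MT.constantCoeff_arc] at this
      exact this
  have e2 : M.χ _ (GB1 A m c e W E J τ) =
      ∑ i0, M.χ _ (GB1 A m c e W E J τ ∩ QQ m c τ some i0) := by
    refine χ_cover M _ _ (constr_GB1 A m c e hW hE J τ) (fun i0 => constr_QQ m c τ _ i0)
      (fun a b h => QQ_disjoint m c τ _ a b h) ?_
    rintro z ⟨hz1, hz2, hz3, hz4, hz5⟩
    refine QQ_cover m c τ _ z ?_
    exact hNon u (fun i => z (some i)) (fun i _ => hz2 i) hz4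
  rw [e1, e2, Finset.sum_mul, Finset.sum_mul, Finset.sum_mul, Finset.sum_mul]
  refine Finset.sum_congr rfl fun i0 _ => ?_
  by_cases hi0 : i0 ∈ free A m J τ
  · have hd : ∀ z : Fin n → AlgebraicClosure K, dgbar m (cb c) τ i0 z = 0 := fun z =>
      dgbar_zero m (cb c) τ i0 z ((mem_free A m J τ i0).1 hi0).2.2
    have h5 : (Y0 (0 : Fin n → K) N u ∩ V) ∩
        QQ m c τ (fun i => (i, (0 : Fin (2 * N + 1 + 1)))) i0 = ∅ := by
      rw [Set.eq_empty_iff_forall_notMem]
      rintro y ⟨_, _, h6⟩
      exact h6 (hd _)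
    have h6 : GB1 A m c e W E J τ ∩ QQ m c τ some i0 = ∅ := by
      rw [Set.eq_empty_iff_forall_notMem]
      rintro y ⟨_, _, h6⟩
      exact h6 (hd _)
    rw [h5, h6, χ_empty, χ_empty]
    ring
  · have hui : u i0 ≤ N := le_of_not_free A m e J u N he hA hfN i0 hi0
    have hl2 : l ≤ 2 * N + 1 - u i0 := by omega
    rw [← base h1 h3 M A m c e hW hE J he N u hA hfN l hl i0 hi0 hl2,
      ← steps h2 h3 M A m c e hW hE N u l i0 hl2 l le_rfl, ← hWC i0]
    congr 2
    rw [Set.inter_assoc, Set.inter_comm V]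

/-- (SUM) -/
theorem sum (h1 : S_Free) (h2 : S_Sub) (h3 : S_Tay) {K : Type} [Field K]
    [CharZero K] {n r : ℕ} {R : Type} [CommRing R] (M : Meas K R)
    (A : Fin n → ℕ) (m : Fin r → Fin n → ℕ) (c : Fin r → K) (e : ℕ)
    {W : Set (Pt K (Fin n))} (hW : Constr W) {E : Set (AlgebraicClosure K)} (hE : Good E)
    (hNon : NonG m c) (he : 0 < e)
    (Y : R) (hY : M.L * Y = 1) (N : ℕ) (hN : 1 ≤ N) :
    M.χ _ (JetG (sp A m c e) W E N) * Y ^ (n * N) =
      ∑ J : Finset (Fin n), ∑ τ : Finset (Fin r), M.L ^ (free A m J τ).card *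
        (M.χ _ (GB0 A m c e W E J τ) *
            Polynomial.eval₂ (Int.castRingHom R) Y (cp A m e J τ N N) +
          ∑ l ∈ Finset.Icc 1 N, if e * l ≤ N then
            M.χ _ (GB1 A m c e W E J τ) * Y ^ l *
              Polynomial.eval₂ (Int.castRingHom R) Y (cp A m e J τ N (N - e * l)) else 0) := by
  classical
  set P := (Fintype.piFinset fun _ : Fin n => Finset.range (N + 2)) with hP
  have key : ∀ J : Finset (Fin n), ∀ u ∈ P.filter (Adm J),
      M.χ (Fin n × Fin (2 * N + 1 + 1)) (strG (sp A m c e) W E N u) * Y ^ (n * (2 * N + 1)) =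
      M.L ^ (free A m J (amin m u)).card * (M.χ _ (GB0 A m c e W E J (amin m u)) *
        (if ford A m e u = N then
          Polynomial.eval₂ (Int.castRingHom R) Y (wt A m J (amin m u) N u) else 0) +
        ∑ l ∈ Finset.Icc 1 N, if e * l ≤ N then
          M.χ _ (GB1 A m c e W E J (amin m u)) * Y ^ l *
            (if ford A m e u = N - e * l then
              Polynomial.eval₂ (Int.castRingHom R) Y (wt A m J (amin m u) N u) else 0)
          else 0) := by
    intro J u hu
    rw [Finset.mem_filter, Fintype.mem_piFinset] at hu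
    obtain ⟨hu1, hA⟩ := hu
    have hu' : ∀ i, u i ≤ N + 1 := by
      intro i
      have := Finset.mem_range.1 (hu1 i)
      omega
    rw [shift M (sp A m c e) hW hE N hN u hu']
    have hset : (Y0 (0 : Fin n → K) N u ∩ shG (sp A m c e) W E N u) =
        Y0 (0 : Fin n → K) N u ∩ {y | ∃ l, ford A m e u + e * l = N ∧ wb u y ∈ W ∧
          (∀ k < l, PowerSeries.coeff k (gser m (cb c) (del m u) (arc y)) = 0) ∧
          (∏ i, y (i, 0) ^ A i) *
            (PowerSeries.coeff l (gser m (cb c) (del m u) (arc y))) ^ e ∈ E} := by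
      ext y
      simp only [Set.mem_inter_iff, Set.mem_ofPred_eq, shG]
      constructor
      · rintro ⟨ha, hw, hb⟩
        obtain ⟨l, h5, h6, h7⟩ := (cond A m c e E hE he N u y ((mem_Y0_zero N u y).1 ha).2).1 hb
        exact ⟨ha, l, h5, hw, h6, h7⟩
      · rintro ⟨ha, l, h5, hw, h6, h7⟩
        exact ⟨ha, hw, (cond A m c e E hE he N u y ((mem_Y0_zero N u y).1 ha).2).2
          ⟨l, h5, h6, h7⟩⟩
    rw [hset]
    have hw := weight_eq A m J (amin m u) N u hu' M.L Y hY
    by_cases hex : ∃ l, ford A m e u + e * l = N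
    · obtain ⟨l, hl⟩ := hex
      have huniq : ∀ l', ford A m e u + e * l' = N → l' = l := by
        intro l' hl'
        have : e * l' = e * l := by omega
        exact Nat.eq_of_mul_eq_mul_left he this
      have hset2 : (Y0 (0 : Fin n → K) N u ∩ {y | ∃ l, ford A m e u + e * l = N ∧ wb u y ∈ W ∧
          (∀ k < l, PowerSeries.coeff k (gser m (cb c) (del m u) (arc y)) = 0) ∧
          (∏ i, y (i, 0) ^ A i) *
            (PowerSeries.coeff l (gser m (cb c) (del m u) (arc y))) ^ e ∈ E}) =
          Y0 (0 : Fin n → K) N u ∩ {y | wb u y ∈ W ∧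
          (∀ k < l, PowerSeries.coeff k (gser m (cb c) (del m u) (arc y)) = 0) ∧
          (∏ i, y (i, 0) ^ A i) *
            (PowerSeries.coeff l (gser m (cb c) (del m u) (arc y))) ^ e ∈ E} := by
        ext y
        simp only [Set.mem_inter_iff, Set.mem_ofPred_eq]
        constructor
        · rintro ⟨ha, l', hl', hb⟩
          rw [huniq l' hl'] at hb
          exact ⟨ha, hb⟩
        · rintro ⟨ha, hb⟩
          exact ⟨ha, l, hl, hb⟩
      rw [hset2]
      rcases Nat.eq_zero_or_pos l with rfl | hlpos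
      · have hN' : ford A m e u = N := by omega
        have h6 := stB h1 h3 M A m c e hW hE he J N u hA hN'
        simp only [Nat.not_lt_zero, false_implies, implies_true, true_and]
        rw [h6, if_pos hN']
        have hz : (∑ l ∈ Finset.Icc 1 N, if e * l ≤ N then
          M.χ _ (GB1 A m c e W E J (amin m u)) * Y ^ l *
            (if ford A m e u = N - e * l then
              Polynomial.eval₂ (Int.castRingHom R) Y (wt A m J (amin m u) N u) else 0)
          else 0) = 0 := by
          refine Finset.sum_eq_zero fun l hl1 => ?_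
          rw [Finset.mem_Icc] at hl1
          have hel : 0 < e * l := Nat.mul_pos he (by omega)
          split_ifs with h7 h8
          · exfalso
            omega
          · rw [mul_zero]
          · rfl
        rw [hz, add_zero]
        linear_combination (M.χ _ (GB0 A m c e W E J (amin m u))) * hw
      · have h6 := stC h1 h2 h3 M A m c e hW hE hNon he J N u hA l hlpos hl
        have hel : 0 < e * l := Nat.mul_pos he hlpos
        have hlN : l ≤ N := le_trans (Nat.le_mul_of_pos_left l he) (by omega)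
        rw [if_neg (by omega), mul_zero, zero_add]
        have hz : (∑ l ∈ Finset.Icc 1 N, if e * l ≤ N then
          M.χ _ (GB1 A m c e W E J (amin m u)) * Y ^ l *
            (if ford A m e u = N - e * l then
              Polynomial.eval₂ (Int.castRingHom R) Y (wt A m J (amin m u) N u) else 0)
          else 0) = M.χ _ (GB1 A m c e W E J (amin m u)) * Y ^ l *
              Polynomial.eval₂ (Int.castRingHom R) Y (wt A m J (amin m u) N u) := by
          rw [Finset.sum_eq_single l]
          · rw [if_pos (by omega), if_pos (by omega)]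
          · intro l' _ hne
            split_ifs with h7 h8
            · exact absurd (huniq l' (by omega)) hne
            · rw [mul_zero]
            · rfl
          · intro h9
            exact absurd (Finset.mem_Icc.2 ⟨hlpos, hlN⟩) h9
        rw [hz]
        have h10 : M.L ^ l * Y ^ l = 1 := by rw [← mul_pow, hY, one_pow]
        have h11 : M.χ _ (Y0 (0 : Fin n → K) N u ∩ {y | wb u y ∈ W ∧
            (∀ k < l, PowerSeries.coeff k (gser m (cb c) (del m u) (arc y)) = 0) ∧
            (∏ i, y (i, 0) ^ A i) *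
              (PowerSeries.coeff l (gser m (cb c) (del m u) (arc y))) ^ e ∈ E}) =
            (M.χ _ (GB1 A m c e W E J (amin m u)) *
            (M.L - 1) ^ ((free A m J (amin m u)).filter fun i => u i ≤ N).card *
            M.L ^ ((free A m J (amin m u)).filter fun i => ¬ u i ≤ N).card *
            M.L ^ (∑ i, (2 * N + 1 - u i))) * Y ^ l := by
          rw [← h6, mul_assoc, h10, mul_one]
        rw [h11]
        linear_combination (M.χ _ (GB1 A m c e W E J (amin m u)) * Y ^ l) * hw
    · have hset2 : (Y0 (0 : Fin n → K) N u ∩ {y | ∃ l, ford A m e u + e * l = N ∧ wb u y ∈ W ∧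
          (∀ k < l, PowerSeries.coeff k (gser m (cb c) (del m u) (arc y)) = 0) ∧
          (∏ i, y (i, 0) ^ A i) *
            (PowerSeries.coeff l (gser m (cb c) (del m u) (arc y))) ^ e ∈ E}) = ∅ := by
        ext y
        simp only [Set.mem_inter_iff, Set.mem_ofPred_eq, Set.mem_empty_iff_false, iff_false]
        rintro ⟨-, l, hl, -⟩
        exact hex ⟨l, hl⟩
      rw [hset2, chi_empty, zero_mul, if_neg (fun h => hex ⟨0, by simpa using h⟩), mul_zero,
        zero_add]
      have hz : (∑ l ∈ Finset.Icc 1 N, if e * l ≤ N then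
        M.χ _ (GB1 A m c e W E J (amin m u)) * Y ^ l *
          (if ford A m e u = N - e * l then
            Polynomial.eval₂ (Int.castRingHom R) Y (wt A m J (amin m u) N u) else 0)
        else 0) = 0 := by
        refine Finset.sum_eq_zero fun l _ => ?_
        split_ifs with h7 h8
        · exact absurd ⟨l, by omega⟩ hex
        · rw [mul_zero]
        · rfl
      rw [hz, mul_zero]
  have hJet := jet h1 M (sp A m c e) hW hE N
  have e1 : M.χ _ (JetG (sp A m c e) W E N) * Y ^ (n * N) =
      (M.χ (Fin n × Fin (N + 1)) (JetG (sp A m c e) W E N) *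
        M.L ^ (n * (N + 1))) * Y ^ (n * (2 * N + 1)) := by
    have h12 : M.L ^ (n * (N + 1)) * Y ^ (n * (2 * N + 1)) = Y ^ (n * N) := by
      have h13 : n * (2 * N + 1) = n * (N + 1) + n * N := by ring
      rw [h13, pow_add, ← mul_assoc, ← mul_pow, hY, one_pow, one_mul]
    rw [mul_assoc, h12]
  rw [e1, hJet, Finset.sum_mul]
  rw [← Finset.sum_fiberwise P (fun u => (Finset.univ.filter fun i => u i ≠ 0 : Finset (Fin n)))]
  refine Finset.sum_congr rfl fun J _ => ?_
  have hfil : P.filter (fun u => (Finset.univ.filter fun i => u i ≠ 0 : Finset (Fin n)) = J) =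
      P.filter (Adm J) := by
    refine Finset.filter_congr fun u _ => ?_
    constructor
    · intro h i
      rw [← h]
      simp
    · intro h
      ext i
      simp only [Finset.mem_filter, Finset.mem_univ, true_and]
      exact h i
  rw [hfil, Finset.sum_congr rfl (key J)]
  rw [← Finset.sum_fiberwise (P.filter (Adm J)) (fun u => amin m u)]
  refine Finset.sum_congr rfl fun τ _ => ?_
  have e2 : ∀ u ∈ (P.filter (Adm J)).filter (fun u => amin m u = τ),
      (M.L ^ (free A m J (amin m u)).card * (M.χ _ (GB0 A m c e W E J (amin m u)) *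
        (if ford A m e u = N then
          Polynomial.eval₂ (Int.castRingHom R) Y (wt A m J (amin m u) N u) else 0) +
        ∑ l ∈ Finset.Icc 1 N, if e * l ≤ N then
          M.χ _ (GB1 A m c e W E J (amin m u)) * Y ^ l *
            (if ford A m e u = N - e * l then
              Polynomial.eval₂ (Int.castRingHom R) Y (wt A m J (amin m u) N u) else 0)
          else 0)) = M.L ^ (free A m J τ).card * (M.χ _ (GB0 A m c e W E J τ) *
        (if ford A m e u = N then
          Polynomial.eval₂ (Int.castRingHom R) Y (wt A m J τ N u) else 0) +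
        ∑ l ∈ Finset.Icc 1 N, if e * l ≤ N then
          M.χ _ (GB1 A m c e W E J τ) * Y ^ l *
            (if ford A m e u = N - e * l then
              Polynomial.eval₂ (Int.castRingHom R) Y (wt A m J τ N u) else 0)
          else 0) := by
    intro u hu
    rw [(Finset.mem_filter.1 hu).2]
  rw [Finset.sum_congr rfl e2, ← Finset.mul_sum, Finset.sum_add_distrib, ← Finset.mul_sum,
    Finset.sum_comm, ev_cp]
  congr 2
  refine Finset.sum_congr rfl fun l _ => ?_
  split_ifs with h7
  · rw [← Finset.mul_sum, ev_cp]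
  · exact Finset.sum_const_zero

/-- **The motivic zeta functions of a nondegenerate polynomial.** -/
theorem fin {n r : ℕ} (m : Fin r → Fin n → ℕ) (hr0 : 0 < r) :
    ∃ S : Finset (ℤ × ℤ),
      (∀ p ∈ S, p = (-1, 1) ∨ ∃ a : Fin n → ℕ, IsRay m a ∧ 0 < gord m a ∧
        p = (-((∑ i, a i : ℕ) : ℤ), (gord m a : ℤ))) ∧
      ∀ (K : Type) [Field K] [CharZero K] (c : Fin r → K), NonG m c →
      ∀ (W : Set (Pt K (Fin n))) (E : Set (AlgebraicClosure K)), Constr W → Good E →
        zetaG (sp 0 m c 1) W E ∈ ratRing K S := by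
  classical
  have h1 : S_K0 := Pool.Agent.W417.MT.K0.main
  have h3 : S_RAT := Pool.Agent.W29.MTRat.main Pool.Agent.W346.MTCp2.main
    Pool.Agent.W230.MTZCF.main
  have h5 : S_CP1 := Pool.Agent.W346.MTCp1.main
  have hFree : S_Free := Pool.Agent.W417.MT.Free.main
  have hSub : S_Sub := Pool.Agent.W21.MTSub.main
  have hTay : S_Tay := Pool.Agent.W417.MT.Tay.main
  have hford : ∀ a : Fin n → ℕ, ford 0 m 1 a = gord m a := fun a => by
    unfold ford
    simp
  set A : Fin n → ℕ := 0 with hA0
  set e : ℕ := 1 with he1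
  have he : 0 < e := by rw [he1]; exact one_pos
  choose l P hl hP using fun (J : Finset (Fin n)) (τ : Finset (Fin r)) => h3 A m e J τ hr0 he
  set S : Finset (ℤ × ℤ) := insert (-1, (e : ℤ)) (Finset.univ.biUnion fun J : Finset (Fin n) =>
    Finset.univ.biUnion fun τ : Finset (Fin r) =>
    (l J τ).toFinset.image fun a => (-((∑ i, a i : ℕ) : ℤ), (ford A m e a : ℤ))) with hS
  have hS1 : ((-1 : ℤ), (e : ℤ)) ∈ S := Finset.mem_insert_self _ _
  have hS2 : ∀ J τ, ∀ a ∈ l J τ, (-((∑ i, a i : ℕ) : ℤ), (ford A m e a : ℤ)) ∈ S :=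
    fun J τ a ha =>
    Finset.mem_insert_of_mem (Finset.mem_biUnion.2 ⟨J, Finset.mem_univ _, Finset.mem_biUnion.2
      ⟨τ, Finset.mem_univ _, Finset.mem_image.2 ⟨a, List.mem_toFinset.2 ha, rfl⟩⟩⟩)
  refine ⟨S, fun p hp => ?_, ?_⟩
  · rcases Finset.mem_insert.1 hp with rfl | hp
    · left
      rw [he1]
      rfl
    · right
      obtain ⟨J, -, hp⟩ := Finset.mem_biUnion.1 hp
      obtain ⟨τ, -, hp⟩ := Finset.mem_biUnion.1 hp
      obtain ⟨a, ha, rfl⟩ := Finset.mem_image.1 hp
      obtain ⟨ha1, ha2⟩ := hl J τ a (List.mem_toFinset.1 ha)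
      rw [hford] at ha2
      exact ⟨a, ha1, ha2, by rw [hford]⟩
  · intro K _ _ c hNon W E hW hE
    obtain ⟨M₀, hM₀⟩ := h1 K
    set M := mapMeas M₀ (algebraMap (K0 K) (MK K)) with hM
    set Y : MK K := (((Lu K)⁻¹ : (MK K)ˣ) : MK K) with hY
    have hL : M.L * Y = 1 := L_mul hM₀
    have hsum := sum hFree hSub hTay M A m c e hW hE hNon he Y hL
    -- the series
    set C : Finset (Fin n) → Finset (Fin r) → PowerSeries (MK K) := fun J τ =>
      PowerSeries.map (ev K) (PowerSeries.mk fun N => cp A m e J τ N N) with hCdef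
    have hC : ∀ J τ, C J τ ∈ ratRing K S := fun J τ =>
      rat_mem _ (ford A m e) (P J τ) (l J τ) (fun a ha => ⟨(hl J τ a ha).2, hS2 J τ a ha⟩)
        (hP J τ)
    have hCc : ∀ J τ N, PowerSeries.coeff N (C J τ) =
        Polynomial.eval₂ (Int.castRingHom (MK K)) Y (cp A m e J τ N N) := fun J τ N => by
      rw [hCdef, PowerSeries.coeff_map, PowerSeries.coeff_mk]
      rfl
    set D : Finset (Fin n) → Finset (Fin r) → PowerSeries (MK K) := fun J τ =>
      PowerSeries.mk fun N => ∑ l ∈ Finset.Icc 1 N,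
        if e * l ≤ N then Y ^ l * PowerSeries.coeff (N - e * l) (C J τ) else 0
      with hDdef
    have hD : ∀ J τ, D J τ ∈ ratRing K S := by
      intro J τ
      have h6 := geo_sum Y (fun N => PowerSeries.coeff N (C J τ)) e he
      have h7 := geo_mul (K := K) (-1) (e : ℤ) (by exact_mod_cast he)
      rw [Int.toNat_natCast, zpow_neg_one] at h7
      have h8 : D J τ = PowerSeries.C Y * PowerSeries.X ^ e * C J τ * geo K (-1) (e : ℤ) := by
        have h9 : PowerSeries.mk (fun N => PowerSeries.coeff N (C J τ)) = C J τ := by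
          ext N
          rw [PowerSeries.coeff_mk]
        rw [h9] at h6
        rw [← h6, mul_assoc, h7, mul_one]
      rw [h8]
      exact (ratRing K S).mul_mem ((ratRing K S).mul_mem ((ratRing K S).mul_mem (C_mem _ _)
        ((ratRing K S).pow_mem (X_mem _) _)) (hC J τ)) (geo_mem (p := (-1, (e : ℤ))) hS1)
    set F : PowerSeries (MK K) := ∑ J : Finset (Fin n), ∑ τ : Finset (Fin r),
      PowerSeries.C (M.L ^ (free A m J τ).card) *
      (PowerSeries.C (M.χ _ (GB0 A m c e W E J τ)) * C J τ +
        PowerSeries.C (M.χ _ (GB1 A m c e W E J τ)) * D J τ)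
      with hF
    have hFmem : F ∈ ratRing K S := by
      refine (ratRing K S).sum_mem fun J _ => (ratRing K S).sum_mem fun τ _ =>
        (ratRing K S).mul_mem (C_mem _ _)
        ((ratRing K S).add_mem ((ratRing K S).mul_mem (C_mem _ _) (hC J τ))
          ((ratRing K S).mul_mem (C_mem _ _) (hD J τ)))
    have hz : zetaG (sp A m c e) W E =
        F - PowerSeries.C (PowerSeries.coeff 0 F) + PowerSeries.C (PowerSeries.coeff 0
          (zetaG (sp A m c e) W E)) := by
      ext N
      by_cases hN : N = 0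
      · subst hN
        rw [map_add, map_sub, PowerSeries.coeff_C, if_pos rfl, PowerSeries.coeff_C, if_pos rfl,
          sub_self, zero_add]
      · rw [map_add, map_sub, PowerSeries.coeff_C, if_neg hN, PowerSeries.coeff_C, if_neg hN,
          sub_zero, add_zero, zetaG, PowerSeries.coeff_mk]
        have h6 := hsum N (by omega)
        have h7 : algebraMap (K0 K) (MK K) (cls (Fin n × Fin (N + 1))
            (JetG (sp A m c e) W E N)) *
            (((Lu K) ^ (-((n * N : ℕ) : ℤ)) : (MK K)ˣ) : MK K) =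
            M.χ _ (JetG (sp A m c e) W E N) * Y ^ (n * N) := by
          rw [zpow_neg, zpow_natCast, ← inv_pow, Units.val_pow_eq_pow_val, ← hM₀]
          rfl
        rw [h7, h6, hF, map_sum]
        refine Finset.sum_congr rfl fun J _ => ?_
        rw [map_sum]
        refine Finset.sum_congr rfl fun τ _ => ?_
        rw [PowerSeries.coeff_C_mul, map_add, PowerSeries.coeff_C_mul, PowerSeries.coeff_C_mul,
          hCc, hDdef, PowerSeries.coeff_mk, Finset.mul_sum]
        congr 2
        refine Finset.sum_congr rfl fun i _ => ?_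
        split_ifs with hi
        · rw [hCc, h5 A m e J τ hr0 he N (N - e * i) (Nat.sub_le _ _), mul_assoc]
        · rw [mul_zero]
    rw [hz]
    exact (ratRing K S).add_mem ((ratRing K S).sub_mem hFmem (C_mem _ _)) (C_mem _ _)

end Pool.Agent.W425.MM.Mot
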