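import Pool.Agent.W428.MOT.EFinal
import Pool.Agent.W425.MM.Mot

/-!
# Project MM: equivariant motivic zeta functions of nondegenerate polynomials

Adapted from `Pool.Agent.W749.ME`, `Pool.Agent.W605.MEInd`, `Pool.Agent.W375.MT.ESum`,
`Pool.Agent.W63.MEFin`: the affine independence of the exponents was used only for the
nondegeneracy.
-/

set_option autoImplicit false

namespace Pool.Agent.W425.MM.EMot

open MvPolynomial
open Pool.Agent.W428.MOT Pool.Agent.W749.MT Pool.Agent.W749.ME
open Pool.Agent.W426.SM (gord ford IsRay face)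
open Pool.Agent.W425.MM

/-- (ESTB) the strata with `l = 0`. -/
def S_EStB1 : Prop :=
  ∀ {k : Type} [Field k] [CharZero k] {n r : ℕ} (A : Fin n → ℕ) (m : Fin r → Fin n → ℕ)
    (c : Fin r → k) (e : ℕ) {R : Type} [CommRing R] (M : EMeas (sp A m c e) R),
    0 < r → 0 < e → ∀ (J : Finset (Fin n)) (N : ℕ), 1 ≤ N →
    ∀ u : Fin n → ℕ, Adm J u → (∀ i, u i ≤ N + 1) → ford A m e u = N →
    M.χ _ (Y0E k N u ∩ {y | (∏ i, y (i, 0) ^ A i) *
        (PowerSeries.coeff 0 (gser m (cb c) (del m u) (arc y))) ^ e = 1})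
        (yw (2 * N + 1) u) N (yb (2 * N + 1) u) =
      M.χ _ (EB0 A m c e J (amin m u)) (bw A m J (amin m u) u) N (bb J) *
        (M.L - 1) ^ ((free A m J (amin m u)).filter fun i => u i ≤ N).card *
        M.L ^ ((free A m J (amin m u)).filter fun i => ¬ u i ≤ N).card *
        M.L ^ (∑ i, (2 * N + 1 - u i))

/-- (ESTC) the strata with `l ≥ 1`. -/
def S_EStC1 : Prop :=
  ∀ {k : Type} [Field k] [CharZero k] {n r : ℕ} (A : Fin n → ℕ) (m : Fin r → Fin n → ℕ)
    (c : Fin r → k) (e : ℕ) {R : Type} [CommRing R] (M : EMeas (sp A m c e) R),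
    Mot.NonG m c → 0 < r → 0 < e → ∀ (J : Finset (Fin n)) (N : ℕ), 1 ≤ N →
    ∀ u : Fin n → ℕ, Adm J u → (∀ i, u i ≤ N + 1) → ∀ l : ℕ, 1 ≤ l →
    ford A m e u + e * l = N →
    M.χ _ (Y0E k N u ∩ {y |
        (∀ k < l, PowerSeries.coeff k (gser m (cb c) (del m u) (arc y)) = 0) ∧
        (∏ i, y (i, 0) ^ A i) *
          (PowerSeries.coeff l (gser m (cb c) (del m u) (arc y))) ^ e = 1})
        (yw (2 * N + 1) u) N (yb (2 * N + 1) u) * M.L ^ l =
      M.χ _ (EB1 A m c e J (amin m u)) (bw1 A m J (amin m u) u l) N (bb1 J) *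
        (M.L - 1) ^ ((free A m J (amin m u)).filter fun i => u i ≤ N).card *
        M.L ^ ((free A m J (amin m u)).filter fun i => ¬ u i ≤ N).card *
        M.L ^ (∑ i, (2 * N + 1 - u i))

/-- (EIND) the classes of the bases do not depend on `u`. -/
def S_EInd1 : Prop :=
  ∀ {k : Type} [Field k] [CharZero k] {n r : ℕ} (A : Fin n → ℕ) (m : Fin r → Fin n → ℕ)
    (c : Fin r → k) (e : ℕ) {R : Type} [CommRing R] (M : EMeas (sp A m c e) R),
    0 < e → ∀ (J : Finset (Fin n)) (τ : Finset (Fin r)),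
    ∃ b0 b1 : R, ∀ u : Fin n → ℕ, Adm J u → amin m u = τ →
      (0 < ford A m e u →
        M.χ _ (EB0 A m c e J τ) (bw A m J τ u) (ford A m e u) (bb J) = b0) ∧
      ∀ l, 1 ≤ l →
        M.χ _ (EB1 A m c e J τ) (bw1 A m J τ u l) (ford A m e u + e * l) (bb1 J) = b1

/-- (ESUM) the class of the jets. -/
def S_ESum1 : Prop :=
  ∀ {k : Type} [Field k] [CharZero k] {n r : ℕ} (A : Fin n → ℕ) (m : Fin r → Fin n → ℕ)
    (c : Fin r → k) (e : ℕ) {R : Type} [CommRing R] (M : EMeas (sp A m c e) R),
    Mot.NonG m c → 0 < r → 0 < e → ∀ Y : R, M.L * Y = 1 →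
    ∃ b0 b1 : Finset (Fin n) → Finset (Fin r) → R, ∀ N : ℕ, 1 ≤ N →
    M.χ _ (JetE (sp A m c e) N) (jw n N) N (jb n N) * Y ^ (n * N) =
      ∑ J : Finset (Fin n), ∑ τ : Finset (Fin r), M.L ^ (free A m J τ).card *
        (b0 J τ * Polynomial.eval₂ (Int.castRingHom R) Y (cp A m e J τ N N) +
          ∑ l ∈ Finset.Icc 1 N, if e * l ≤ N then
            b1 J τ * Y ^ l *
              Polynomial.eval₂ (Int.castRingHom R) Y (cp A m e J τ N (N - e * l)) else 0)

section
open Pool.Agent.W749.ME.EStB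
theorem eStB (h1 : S_EFree) (h2 : S_Tay) : S_EStB1 := by
  intro K _ _ n r A m c e R _ M hr he J N hN u hA hu hf
  classical
  have hJ : ∀ i, i ∈ J ↔ u i ≠ 0 := fun i => (hA i).symm
  have hf0 : 0 < ford A m e u := by omega
  set τ := amin m u with hτ
  set Fr := free A m J τ with hFr
  have hFJ : ∀ i ∈ Fr, i ∈ J ∧ A i = 0 ∧ ∀ j ∈ τ, m j i = 0 := fun i hi =>
    (mem_free A m J τ i).1 hi
  have hl0 : ∀ l : AlgebraicClosure K, l ^ N = 1 → l ≠ 0 := by
    intro l hl h0
    rw [h0, zero_pow (by omega)] at hl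
    exact zero_ne_one hl
  set T : Set (Pt K (Fin n × Fin (2 * N + 1 + 1))) :=
    {y | (∏ i, y (i, 0) ^ A i) * (gbar m (cb c) τ (fun i => y (i, 0))) ^ e = 1} with hT
  have hTc : Constr T := by
    refine Constr.eq ?_ IsPF.one
    exact (IsPF_prod A (fun i => (i, 0))).mul ((IsPF_gbar m c τ (fun i => (i, 0))).pow e)
  have hTe : {y : Pt K (Fin n × Fin (2 * N + 1 + 1)) | (∏ i, y (i, 0) ^ A i) *
        (PowerSeries.coeff 0 (gser m (cb c) (del m u) (arc y))) ^ e = 1} = T := by
    ext y
    simp only [hT, Set.mem_ofPred_eq]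
    rw [(h2 m (cb c) (del m u) (arc y)).1, filter_del]
    simp only [constantCoeff_arc]
    exact Iff.rfl
  have hdep : ∀ y w : Pt K (Fin n × Fin (2 * N + 1 + 1)), (∀ i, i ∉ Fr → w (i, 0) = y (i, 0)) →
      (∀ p ∈ (∅ : Finset (Fin n × Fin (2 * N + 1 + 1))), w p = y p) → y ∈ T → w ∈ T := by
    intro y w h _ hy
    simp only [hT, Set.mem_ofPred_eq] at hy ⊢
    rw [← hy]
    congr 1
    · refine prod_congr' A (fun i => w (i, 0)) (fun i => y (i, 0)) fun i hi => ?_
      refine h i fun hc => hi (hFJ i hc).2.1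
    · congr 1
      refine gbar_congr m (cb c) τ _ _ fun i hi => ?_
      refine h i fun hc => ?_
      obtain ⟨j, hj, hm⟩ := hi
      exact hm ((hFJ i hc).2.2 j hj)
  -- the invariance of the equation
  have hinv : ∀ (l : AlgebraicClosure K) (w : Fin n → ℤ) (z : Fin n → AlgebraicClosure K),
      l ^ N = 1 → (∀ i, i ∉ Fr → w i = u i) →
      (∏ i, z i ^ A i) * gbar m (cb c) τ z ^ e = 1 →
      (∏ i, (l ^ w i * z i) ^ A i) * gbar m (cb c) τ (fun i => l ^ w i * z i) ^ e = 1 := by
    intro l w z hl hw hz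
    rw [prod_smul l u w A z fun i hi => hw i fun hc => hi (hFJ i hc).2.1,
      gbar_smul l u w m (cb c) z ?_]
    · have e1 : l ^ (∑ i, u i * A i) * ∏ i, z i ^ A i =
          l ^ (∑ i, u i * A i) * ∏ i, z i ^ A i := rfl
      have e2 : l ^ (∑ i, u i * A i) * (∏ i, z i ^ A i) *
          (l ^ gord m u * gbar m (cb c) (amin m u) z) ^ e =
          l ^ (∑ i, u i * A i + e * gord m u) *
            ((∏ i, z i ^ A i) * gbar m (cb c) (amin m u) z ^ e) := by
        rw [mul_pow, ← pow_mul, pow_add, mul_comm (gord m u) e]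
        ring
      rw [e2, hz, mul_one]
      have e3 : ∑ i, u i * A i + e * gord m u = N := hf
      rw [e3, hl]
    · intro i hi
      refine hw i fun hc => ?_
      obtain ⟨j, hj, hm⟩ := hi
      exact hm ((hFJ i hc).2.2 j hj)
  have hTst : ∀ l : AlgebraicClosure K, l ^ N = 1 → ∀ z ∈ T,
      dact (yw (2 * N + 1) u) l z ∈ T := by
    intro l hl z hz
    simp only [hT, Set.mem_ofPred_eq, dact_yw_zero] at hz ⊢
    exact hinv l (fun i => (u i : ℤ)) (fun i => z (i, 0)) hl (fun i _ => rfl) hz
  have hx : ∀ i ∈ Fr, u i ≠ 0 := fun i hi => (hJ i).1 (hFJ i hi).1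
  have hbase : ∀ z : Pt K (Fin n × Fin (2 * N + 1 + 1)),
      MvPolynomial.aeval (cbase (yb (2 * N + 1) u) z) (sp A m c e) = 0 :=
    base_yb A m c e he u hf0
  have key := freeE h1 M N u (by omega) Fr hx
    (fun i hi => le_of_not_free A m e J u N he hA hf.le i hi) hbase ∅ (Finset.empty_subset _) T
    hTc hTst hdep
  rw [Finset.card_empty, pow_zero, mul_one] at key
  rw [hTe, key]
  congr 3
  have hVN := valid_Nrm N u (by omega) Fr hx hbase ∅ (Finset.empty_subset _) T hTc hTst hdep
  have hVB : Valid (sp A m c e) (EB0 A m c e J τ) (bw A m J τ u) N (bb J) := by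
    refine ⟨?_, by omega, ?_, fun z _ => base_bb A m c e he J u hA hf0 z, ?_⟩
    · refine Constr.and ?_ (Constr.and ?_ ?_)
      · exact Constr.all fun i => Constr.ne (IsPF.coord _) IsPF.zero
      · exact Constr.ballFinset _ fun i _ => Constr.eq (IsPF.coord _) IsPF.one
      · exact Constr.eq ((IsPF_prod A id).mul ((IsPF_gbar m c τ id).pow e)) IsPF.one
    · rintro l hl z ⟨hz1, hz2, hz3⟩
      refine ⟨fun i => mul_ne_zero (zpow_ne_zero _ (hl0 l hl)) (hz1 i), fun i hi => ?_, ?_⟩
      · show l ^ bw A m J τ u i * z i = 1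
        unfold bw
        rw [if_pos hi, zpow_zero, one_mul]
        exact hz2 i hi
      · exact hinv l (bw A m J τ u) z hl (fun i hi => if_neg hi) hz3
    · intro i j h
      unfold bb at h
      split_ifs at h with h0
      rw [← Option.some.inj h]
      unfold bw
      split_ifs with h3
      · rfl
      · have : u i = 0 := by
          by_contra hc
          exact h0 ((hJ i).2 hc)
        rw [this]
        rfl
  refine M.iso _ _ _ _ _ _ _ _ hVN hVB (fun y i => y (i, 0))
    (fun z p => if (p.2 : ℕ) = 0 then z p.1 else 0) ?_ ?_ ?_ ?_ ?_ ?_ ?_ ?_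
  · exact regularOn_poly (fun i => IsPF.coord _) _
  · refine regularOn_poly (fun p => ?_) _
    by_cases h : (p.2 : ℕ) = 0
    · simpa only [if_pos h] using IsPF.coord (K := K) p.1
    · simpa only [if_neg h] using IsPF.zero (K := K)
  · rintro y ⟨⟨hy1, hy2, hy3⟩, hy5⟩
    refine ⟨?_, hy3, hy5⟩
    intro i
    by_cases h : i ∈ Fr
    · show y (i, 0) ≠ 0
      rw [hy3 i h]
      exact one_ne_zero
    · exact hy2 i h
  · rintro z ⟨hz1, hz2, hz3⟩
    have h0 : ((0 : Fin (2 * N + 1 + 1)) : ℕ) = 0 := rfl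
    refine ⟨⟨?_, ?_, ?_⟩, ?_⟩
    · intro p hp _
      exact if_neg hp.ne'
    · intro i hi
      show (if ((0 : Fin (2 * N + 1 + 1)) : ℕ) = 0 then z i else 0) ≠ 0
      rw [if_pos h0]
      exact hz1 i
    · intro i hi
      show (if ((0 : Fin (2 * N + 1 + 1)) : ℕ) = 0 then z i else 0) = _
      rw [if_pos h0]
      exact hz2 i hi
    · show (∏ i, (if ((0 : Fin (2 * N + 1 + 1)) : ℕ) = 0 then z i else 0) ^ A i) *
        (gbar m (cb c) τ (fun i => if ((0 : Fin (2 * N + 1 + 1)) : ℕ) = 0 then z i else 0)) ^ e = 1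
      simp only [if_pos h0]
      exact hz3
  · rintro y ⟨⟨hy1, hy2, hy3⟩, hy5⟩
    funext p
    show (if (p.2 : ℕ) = 0 then y (p.1, 0) else 0) = y p
    by_cases h : (p.2 : ℕ) = 0
    · rw [if_pos h]
      congr 1
      refine Prod.ext rfl ?_
      exact Fin.ext h.symm
    · rw [if_neg h]
      exact (hy1 p (Nat.pos_of_ne_zero h) (Finset.notMem_empty p)).symm
  · intro z _
    funext i
    show (if ((0 : Fin (2 * N + 1 + 1)) : ℕ) = 0 then z i else 0) = z i
    exact if_pos rfl
  · intro z _
    funext i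
    show (bb J i).elim 0 (fun i => z (i, 0)) = (yb (2 * N + 1) u i).elim 0 z
    unfold bb yb
    by_cases h : i ∈ J
    · rw [if_pos h, if_neg ((hJ i).1 h)]
      rfl
    · have : u i = 0 := by
        by_contra hc
        exact h ((hJ i).2 hc)
      rw [if_neg h, if_pos this]
      rfl
  · intro l hl z _
    funext i
    show (l ^ N) ^ nw N u Fr ∅ (i, 0) * z (i, 0) = (l ^ N) ^ bw A m J τ u i * z (i, 0)
    congr 2
    unfold nw bw
    by_cases h : i ∈ Fr
    · rw [if_pos (Or.inl ⟨h, rfl⟩), if_pos h]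
    · rw [if_neg, if_neg h]
      · show (u i : ℤ) + (((0 : Fin (2 * N + 1 + 1)) : ℕ) : ℤ) = u i
        have h0 : (((0 : Fin (2 * N + 1 + 1)) : ℕ) : ℤ) = 0 := rfl
        rw [h0, add_zero]
      · rintro (⟨h3, _⟩ | ⟨h3, _⟩)
        · exact h h3
        · exact absurd (mem_Qs.1 h3).1 (lt_irrefl 0)

end

section
open Pool.Agent.W749.ME.EStC Pool.Agent.W749.MT.StC
theorem eStC (h1 : S_EFree) (h2 : S_ESub) (h3 : S_Tay) : S_EStC1 := by
  intro K _ _ n r A m c e R _ M hNon hr he J N hN u hA hu l hl hf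
  classical
  have hN0 : 0 < N := hN
  have hJ : ∀ i, i ∈ J ↔ u i ≠ 0 := fun i => (hA i).symm
  set τ := amin m u with hτ
  set δ := del m u with hδ
  have hτne : τ.Nonempty := amin_nonempty m u hr
  have hlN : l ≤ N := by
    have : l ≤ e * l := Nat.le_mul_of_pos_left _ he
    omega
  have hfN : ford A m e u ≤ N := by omega
  have ht00 : ∀ t : AlgebraicClosure K, t ^ N = 1 → t ≠ 0 := by
    rintro t ht rfl
    rw [zero_pow hN0.ne'] at ht
    exact zero_ne_one ht
  set W : Set (Pt K (Fin n × Fin (2 * N + 1 + 1))) :=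
    {y | (∀ k < l, PowerSeries.coeff k (gser m (cb c) δ (arc y)) = 0) ∧
        (∏ i, y (i, 0) ^ A i) *
          (PowerSeries.coeff l (gser m (cb c) δ (arc y))) ^ e = 1} with hW
  have hWC : ∀ i0, W = CC A m c e δ l i0 l := by
    intro i0
    have hv : ∀ (y : Pt K (Fin n × Fin (2 * N + 1 + 1))) (k : ℕ), k ≤ l →
        vv m c δ i0 l y k = PowerSeries.coeff k (gser m (cb c) δ (arc y)) := fun y k hk =>
      if_pos hk
    ext y
    constructor
    · rintro ⟨h5, h6⟩
      refine ⟨fun k hk => ?_, ?_⟩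
      · rw [hv y k hk.le]
        exact h5 k hk
      · rw [hv y l le_rfl]
        exact h6
    · rintro ⟨h5, h6⟩
      refine ⟨fun k hk => ?_, ?_⟩
      · rw [← hv y k hk.le]
        exact h5 k hk
      · rw [← hv y l le_rfl]
        exact h6
  have hWc : Constr W := by
    refine Constr.and ?_ ?_
    · exact Constr.allLt l fun k _ => Constr.eqz (IsPA_gser m c δ k)
    · exact Constr.eq ((IsPF_prod A fun i => (i, 0)).mul ((IsPA_gser m c δ l).pow e)) IsPF.one
  have hVW : Valid (sp A m c e) (Y0E K N u ∩ W) (yw (2 * N + 1) u) N (yb (2 * N + 1) u) := by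
    refine ⟨?_, hN0, ?_, ?_, ?_⟩
    · refine Constr.inter ?_ hWc
      refine Constr.and ?_ ?_
      · refine Constr.all fun i => Constr.all fun j => Constr.imp' fun _ => ?_
        exact Constr.eqz (IsPF.coord _)
      · refine Constr.all fun i => Constr.imp' fun _ => ?_
        exact Constr.ne (IsPF.coord _) IsPF.zero
    · rintro t ht z ⟨⟨hz1, hz2⟩, hz3, hz4⟩
      have ht0 := ht00 t ht
      refine ⟨⟨fun i j hj => ?_, fun i hi => ?_⟩, fun k hk => ?_, ?_⟩
      · show t ^ _ * z (i, j) = 0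
        rw [hz1 i j hj, mul_zero]
      · exact mul_ne_zero (zpow_ne_zero _ ht0) (hz2 i hi)
      · rw [hδ, coeff_gser_dact u m c t ht0 z k, hz3 k hk, mul_zero]
      · rw [hδ, coeff_gser_dact u m c t ht0 z l]
        simp only [dact_yw_zero]
        rw [prod_smul t u (fun i => (u i : ℤ)) A (fun i => z (i, 0)) fun _ _ => rfl]
        exact final_eq m e u N l hf t ht _ _ hz4
    · rintro z ⟨_, hz3, _⟩
      refine base_gbar A m c e he u _ (fun i => z (i, 0)) ?_ ?_ ?_
      · intro i hi
        unfold cbase yb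
        rw [if_neg hi]
        rfl
      · intro i hi
        unfold cbase yb
        rw [if_pos hi]
        rfl
      · have h5 := hz3 0 hl
        rw [(h3 m (cb c) δ (arc z)).1, hδ, filter_del] at h5
        simp only [constantCoeff_arc] at h5
        exact h5
    · intro i j h
      unfold yb at h
      split_ifs at h with h0
      rw [← Option.some.inj h]
      show (u i : ℤ) + (((0 : Fin (2 * N + 1 + 1)) : ℕ) : ℤ) = 0
      rw [h0]
      rfl
  have hst1 : ∀ i0, ∀ t : AlgebraicClosure K, t ^ N = 1 →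
      ∀ z ∈ QQ m c τ (fun i => (i, (0 : Fin (2 * N + 1 + 1)))) i0,
      dact (yw (2 * N + 1) u) t z ∈ QQ m c τ (fun i => (i, (0 : Fin (2 * N + 1 + 1)))) i0 := by
    intro i0 t ht z hz
    refine QQ_stable m c u _ i0 _ (fun i _ => ?_) t (ht00 t ht) z hz
    show (u i : ℤ) + (((0 : Fin (2 * N + 1 + 1)) : ℕ) : ℤ) = u i
    have h0 : (((0 : Fin (2 * N + 1 + 1)) : ℕ) : ℤ) = 0 := rfl
    rw [h0, add_zero]
  have hVB := valid_B1 A m c e he J N hN0 u hA l hf
  have e1 : M.χ _ (Y0E K N u ∩ W) (yw (2 * N + 1) u) N (yb (2 * N + 1) u) =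
      ∑ i0, M.χ _ ((Y0E K N u ∩ W) ∩
        QQ m c τ (fun i => (i, (0 : Fin (2 * N + 1 + 1)))) i0)
        (yw (2 * N + 1) u) N (yb (2 * N + 1) u) := by
    refine χE_cover M _ _ _ _ _ hVW (fun i0 => constr_QQ m c τ _ i0) hst1
      (fun a b h => QQ_disjoint m c τ _ a b h) ?_
    rintro y ⟨⟨hy1, hy2⟩, hy4, hy5⟩
    refine QQ_cover m c τ _ y ?_
    refine hNon u (fun i => y (i, 0)) ?_ ?_
    · rintro i ⟨j, hj, hm⟩
      refine hy2 i (le_of_not_free A m e J u N he hA hfN i ?_)
      intro hcf
      exact hm (((mem_free A m J τ i).1 hcf).2.2 j hj)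
    · have := hy4 0 hl
      rw [(h3 m (cb c) δ (arc y)).1, hδ, filter_del] at this
      simp only [constantCoeff_arc] at this
      exact this
  have e2 : M.χ _ (EB1 A m c e J τ) (bw1 A m J τ u l) N (bb1 J) =
      ∑ i0, M.χ _ (EB1 A m c e J τ ∩ QQ m c τ some i0) (bw1 A m J τ u l) N (bb1 J) := by
    refine χE_cover M _ _ _ _ _ hVB (fun i0 => constr_QQ m c τ _ i0)
      (fun i0 t ht z hz => QQ_some_stable A m c J N hN0 u l i0 t ht z hz)
      (fun a b h => QQ_disjoint m c τ _ a b h) ?_
    rintro z ⟨hz1, hz3, hz4, hz5⟩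
    refine QQ_cover m c τ _ z ?_
    exact hNon u (fun i => z (some i)) (fun i _ => hz1 i) hz4
  rw [e1, e2, Finset.sum_mul, Finset.sum_mul, Finset.sum_mul, Finset.sum_mul]
  refine Finset.sum_congr rfl fun i0 _ => ?_
  by_cases hi0 : i0 ∈ free A m J τ
  · have hd : ∀ z : Fin n → AlgebraicClosure K, dgbar m (cb c) τ i0 z = 0 := fun z =>
      dgbar_zero m (cb c) τ i0 z ((mem_free A m J τ i0).1 hi0).2.2
    have h5 : (Y0E K N u ∩ W) ∩ QQ m c τ (fun i => (i, (0 : Fin (2 * N + 1 + 1)))) i0 = ∅ := by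
      rw [Set.eq_empty_iff_forall_notMem]
      rintro y ⟨_, _, h6⟩
      exact h6 (hd _)
    have h6 : EB1 A m c e J τ ∩ QQ m c τ some i0 = ∅ := by
      rw [Set.eq_empty_iff_forall_notMem]
      rintro y ⟨_, _, h6⟩
      exact h6 (hd _)
    rw [h5, h6, χE_empty M _ _ _ hN0 hVW.inv, χE_empty M _ _ _ hN0 hVB.inv]
    ring
  · have hui : u i0 ≤ N := le_of_not_free A m e J u N he hA hfN i0 hi0
    have hl2 : l ≤ 2 * N + 1 - u i0 := by omega
    rw [← base h1 h3 A m c e M J he N hN0 u hA l hf hl i0 hi0 hl2,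
      ← steps h2 h3 A m c e M he N hN0 u l hf i0 hl2 l le_rfl, ← hWC i0, ws_self]
    congr 2
    rw [Set.inter_assoc, Set.inter_comm W]

end

section
open Pool.Agent.W605.MEInd
theorem eInd (h1 : S_ETw) : S_EInd1 := by
  intro k _ _ n r A m c e R _ M he J τ
  have : Inhabited R := ⟨0⟩
  obtain ⟨b0, hb0⟩ := exists_const (fun u : Fin n → ℕ => Adm J u ∧ amin m u = τ ∧
      0 < ford A m e u)
    (fun u => M.χ _ (EB0 A m c e J τ) (bw A m J τ u) (ford A m e u) (bb J)) (by
      rintro u u' ⟨hJ, hu, hf⟩ ⟨hJ', hu', hf'⟩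
      refine h1 M (EB0 A m c e J τ) _ _ _ _ (bb J) (valid0 A m c e he J τ u hJ hu hf)
        (valid0 A m c e he J τ u' hJ' hu' hf') (fun z hz i _ => hz.1 i) (fun s hs z hz => ?_)
      refine stable0 A m c e J τ _ s hs
        ((ford A m e u' : ℤ) * ((∑ i, u i * A i : ℕ) : ℤ) -
          (ford A m e u : ℤ) * ((∑ i, u' i * A i : ℕ) : ℤ))
        ((ford A m e u' : ℤ) * (gord m u : ℤ) - (ford A m e u : ℤ) * (gord m u' : ℤ))
        (fun i hi => ?_) ?_ (fun j hj => ?_) ?_ z hz
      · simp only [bw_free A m J τ u i hi, bw_free A m J τ u' i hi, mul_zero, sub_zero]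
      · rw [← bw_A A m J τ u, ← bw_A A m J τ u', Finset.mul_sum, Finset.mul_sum,
          ← Finset.sum_sub_distrib]
        refine Finset.sum_congr rfl fun i _ => ?_
        ring
      · rw [← bw_m A m J τ u hu j hj, ← bw_m A m J τ u' hu' j hj, Finset.mul_sum,
          Finset.mul_sum, ← Finset.sum_sub_distrib]
        refine Finset.sum_congr rfl fun i _ => ?_
        ring
      · convert zpow_zero s using 2
        unfold ford
        push_cast
        ring)
  obtain ⟨b1, hb1⟩ := exists_const (fun p : (Fin n → ℕ) × ℕ => Adm J p.1 ∧ amin m p.1 = τ ∧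
      1 ≤ p.2)
    (fun p => M.χ _ (EB1 A m c e J τ) (bw1 A m J τ p.1 p.2) (ford A m e p.1 + e * p.2)
      (bb1 J)) (by
      rintro ⟨u, l⟩ ⟨u', l'⟩ ⟨hJ, hu, hl⟩ ⟨hJ', hu', hl'⟩
      simp only at hJ hu hl hJ' hu' hl' ⊢
      refine h1 M (EB1 A m c e J τ) _ _ _ _ (bb1 J) (valid1 A m c e he J τ u hJ hu l hl)
        (valid1 A m c e he J τ u' hJ' hu' l' hl') (fun z hz i _ => ?_) (fun s hs z hz => ?_)
      · cases i with
        | none =>
          intro h0
          have h2 := hz.2.2.2
          rw [h0, zero_pow he.ne', mul_zero] at h2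
          exact zero_ne_one h2
        | some i => exact hz.1 i
      refine stable1 A m c e J τ _ s hs
        (((ford A m e u' + e * l' : ℕ) : ℤ) * ((∑ i, u i * A i : ℕ) : ℤ) -
          ((ford A m e u + e * l : ℕ) : ℤ) * ((∑ i, u' i * A i : ℕ) : ℤ))
        (((ford A m e u' + e * l' : ℕ) : ℤ) * (gord m u : ℤ) -
          ((ford A m e u + e * l : ℕ) : ℤ) * (gord m u' : ℤ))
        (fun i hi => ?_) ?_ (fun j hj => ?_) ?_ z hz
      · simp only [bw1, bw_free A m J τ u i hi, bw_free A m J τ u' i hi, mul_zero, sub_zero]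
      · rw [← bw_A A m J τ u, ← bw_A A m J τ u', Finset.mul_sum, Finset.mul_sum,
          ← Finset.sum_sub_distrib]
        refine Finset.sum_congr rfl fun i _ => ?_
        simp only [bw1]
        ring
      · rw [← bw_m A m J τ u hu j hj, ← bw_m A m J τ u' hu' j hj, Finset.mul_sum,
          Finset.mul_sum, ← Finset.sum_sub_distrib]
        refine Finset.sum_congr rfl fun i _ => ?_
        simp only [bw1]
        ring
      · convert zpow_zero s using 2
        unfold ford bw1
        push_cast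
        ring)
  exact ⟨b0, b1, fun u hJ hu => ⟨fun hf => hb0 u ⟨hJ, hu, hf⟩,
    fun l hl => hb1 (u, l) ⟨hJ, hu, hl⟩⟩⟩

end

section
open Pool.Agent.W375.MT
theorem eSum (h1 : S_EJet) (h2 : S_EShift) (h3 : S_ECond) (h4 : S_EStB1) (h5 : S_EStC1)
    (h6 : S_EInd1) : S_ESum1 := by
  classical
  intro k _ _ n r A m c e R _ M hNon hr he Y hY
  have hind := h6 A m c e M he
  choose b0 b1 hb using hind
  refine ⟨b0, b1, fun N hN => ?_⟩
  set P := (Fintype.piFinset fun _ : Fin n => Finset.range (N + 2)) with hP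
  have key : ∀ J : Finset (Fin n), ∀ u ∈ P.filter (Adm J),
      M.χ (Fin n × Fin (2 * N + 1 + 1)) (stratE (sp A m c e) N u) (jw n (2 * N + 1)) N
        (jb n (2 * N + 1)) * Y ^ (n * (2 * N + 1)) =
      M.L ^ (free A m J (amin m u)).card * (b0 J (amin m u) *
        (if ford A m e u = N then
          Polynomial.eval₂ (Int.castRingHom R) Y (wt A m J (amin m u) N u) else 0) +
        ∑ l ∈ Finset.Icc 1 N, if e * l ≤ N then
          b1 J (amin m u) * Y ^ l *
            (if ford A m e u = N - e * l then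
              Polynomial.eval₂ (Int.castRingHom R) Y (wt A m J (amin m u) N u) else 0)
          else 0) := by
    intro J u hu
    rw [Finset.mem_filter, Fintype.mem_piFinset] at hu
    obtain ⟨hu1, hA⟩ := hu
    have hu' : ∀ i, u i ≤ N + 1 := by
      intro i
      have := Finset.mem_range.1 (hu1 i)
      omega
    rw [h2 M N hN u hu']
    have hV := yE_valid (sp A m c e) N hN u
    have hset : (Y0E k N u ∩ {y | ∀ j ≤ N, PowerSeries.coeff j
        (aeval (fun i => PowerSeries.X ^ u i * arc y i) (sp A m c e)) =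
          if j = N then 1 else 0}) =
        Y0E k N u ∩ {y | ∃ l, ford A m e u + e * l = N ∧
          (∀ k < l, PowerSeries.coeff k (gser m (cb c) (del m u) (arc y)) = 0) ∧
          (∏ i, y (i, 0) ^ A i) *
            (PowerSeries.coeff l (gser m (cb c) (del m u) (arc y))) ^ e = 1} := by
      ext y
      simp only [Set.mem_inter_iff, Set.mem_ofPred_eq]
      constructor
      · rintro ⟨ha, hb⟩
        exact ⟨ha, (h3 A m c e hr he N hN u hu' y ha).1 hb⟩
      · rintro ⟨ha, hb⟩
        exact ⟨ha, (h3 A m c e hr he N hN u hu' y ha).2 hb⟩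
    rw [hset]
    rw [hset] at hV
    have hw := weight_eq A m J (amin m u) N u hu' M.L Y hY
    by_cases hex : ∃ l, ford A m e u + e * l = N
    · obtain ⟨l, hl⟩ := hex
      have huniq : ∀ l', ford A m e u + e * l' = N → l' = l := by
        intro l' hl'
        have : e * l' = e * l := by omega
        exact Nat.eq_of_mul_eq_mul_left he this
      have hset2 : (Y0E k N u ∩ {y | ∃ l, ford A m e u + e * l = N ∧
          (∀ k < l, PowerSeries.coeff k (gser m (cb c) (del m u) (arc y)) = 0) ∧
          (∏ i, y (i, 0) ^ A i) *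
            (PowerSeries.coeff l (gser m (cb c) (del m u) (arc y))) ^ e = 1}) =
          Y0E k N u ∩ {y | (∀ k < l, PowerSeries.coeff k (gser m (cb c) (del m u) (arc y)) = 0) ∧
          (∏ i, y (i, 0) ^ A i) *
            (PowerSeries.coeff l (gser m (cb c) (del m u) (arc y))) ^ e = 1} := by
        ext y
        simp only [Set.mem_inter_iff, Set.mem_ofPred_eq]
        constructor
        · rintro ⟨ha, l', hl', hb⟩
          rw [huniq l' hl'] at hb
          exact ⟨ha, hb⟩
        · rintro ⟨ha, hb⟩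
          exact ⟨ha, l, hl, hb⟩
      rw [hset2]
      rcases Nat.eq_zero_or_pos l with rfl | hlpos
      · have hN' : ford A m e u = N := by omega
        have h6 := h4 A m c e M hr he J N hN u hA hu' hN'
        simp only [Nat.not_lt_zero, false_implies, implies_true, true_and]
        have h7 := (hb J (amin m u) u hA rfl).1 (by omega)
        rw [hN'] at h7
        rw [h6, h7, if_pos hN']
        have hz : (∑ l ∈ Finset.Icc 1 N, if e * l ≤ N then
          b1 J (amin m u) * Y ^ l *
            (if ford A m e u = N - e * l then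
              Polynomial.eval₂ (Int.castRingHom R) Y (wt A m J (amin m u) N u) else 0)
          else 0) = 0 := by
          refine Finset.sum_eq_zero fun l hl1 => ?_
          rw [Finset.mem_Icc] at hl1
          have hel : 0 < e * l := Nat.mul_pos he (by omega)
          split_ifs with h7 h8
          · exfalso
            omega
          · rw [mul_zero]
          · rfl
        rw [hz, add_zero]
        linear_combination (b0 J (amin m u)) * hw
      · have h6 := h5 A m c e M hNon hr he J N hN u hA hu' l hlpos hl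
        have h7 := (hb J (amin m u) u hA rfl).2 l hlpos
        rw [hl] at h7
        rw [h7] at h6
        have hel : 0 < e * l := Nat.mul_pos he hlpos
        have hlN : l ≤ N := le_trans (Nat.le_mul_of_pos_left l he) (by omega)
        rw [if_neg (by omega), mul_zero, zero_add]
        have hz : (∑ l ∈ Finset.Icc 1 N, if e * l ≤ N then
          b1 J (amin m u) * Y ^ l *
            (if ford A m e u = N - e * l then
              Polynomial.eval₂ (Int.castRingHom R) Y (wt A m J (amin m u) N u) else 0)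
          else 0) = b1 J (amin m u) * Y ^ l *
              Polynomial.eval₂ (Int.castRingHom R) Y (wt A m J (amin m u) N u) := by
          rw [Finset.sum_eq_single l]
          · rw [if_pos (by omega), if_pos (by omega)]
          · intro l' _ hne
            split_ifs with h7 h8
            · exact absurd (huniq l' (by omega)) hne
            · rw [mul_zero]
            · rfl
          · intro h9
            exact absurd (Finset.mem_Icc.2 ⟨hlpos, hlN⟩) h9
        rw [hz]
        have h10 : M.L ^ l * Y ^ l = 1 := by rw [← mul_pow, hY, one_pow]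
        have h11 : M.χ _ (Y0E k N u ∩ {y |
            (∀ k < l, PowerSeries.coeff k (gser m (cb c) (del m u) (arc y)) = 0) ∧
            (∏ i, y (i, 0) ^ A i) *
              (PowerSeries.coeff l (gser m (cb c) (del m u) (arc y))) ^ e = 1})
              (yw (2 * N + 1) u) N (yb (2 * N + 1) u) =
            (b1 J (amin m u) *
            (M.L - 1) ^ ((free A m J (amin m u)).filter fun i => u i ≤ N).card *
            M.L ^ ((free A m J (amin m u)).filter fun i => ¬ u i ≤ N).card *
            M.L ^ (∑ i, (2 * N + 1 - u i))) * Y ^ l := by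
          rw [← h6, mul_assoc, h10, mul_one]
        rw [h11]
        linear_combination (b1 J (amin m u) * Y ^ l) * hw
    · have hset2 : (Y0E k N u ∩ {y | ∃ l, ford A m e u + e * l = N ∧
          (∀ k < l, PowerSeries.coeff k (gser m (cb c) (del m u) (arc y)) = 0) ∧
          (∏ i, y (i, 0) ^ A i) *
            (PowerSeries.coeff l (gser m (cb c) (del m u) (arc y))) ^ e = 1}) = ∅ := by
        ext y
        simp only [Set.mem_inter_iff, Set.mem_ofPred_eq, Set.mem_empty_iff_false, iff_false]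
        rintro ⟨-, l, hl, -⟩
        exact hex ⟨l, hl⟩
      rw [hset2, echi_empty M hV, zero_mul, if_neg (fun h => hex ⟨0, by simpa using h⟩), mul_zero,
        zero_add]
      have hz : (∑ l ∈ Finset.Icc 1 N, if e * l ≤ N then
        b1 J (amin m u) * Y ^ l *
          (if ford A m e u = N - e * l then
            Polynomial.eval₂ (Int.castRingHom R) Y (wt A m J (amin m u) N u) else 0)
        else 0) = 0 := by
        refine Finset.sum_eq_zero fun l _ => ?_
        split_ifs with h7 h8
        · exact absurd ⟨l, by omega⟩ hex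
        · rw [mul_zero]
        · rfl
      rw [hz, mul_zero]
  have hJet := h1 M N hN
  have e1 : M.χ _ (JetE (sp A m c e) N) (jw n N) N (jb n N) * Y ^ (n * N) =
      (M.χ (Fin n × Fin (N + 1)) (JetE (sp A m c e) N) (jw n N) N (jb n N) *
        M.L ^ (n * (N + 1))) * Y ^ (n * (2 * N + 1)) := by
    have h12 : M.L ^ (n * (N + 1)) * Y ^ (n * (2 * N + 1)) = Y ^ (n * N) := by
      have h13 : n * (2 * N + 1) = n * (N + 1) + n * N := by ring
      rw [h13, pow_add, ← mul_assoc, ← mul_pow, hY, one_pow, one_mul]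
    rw [mul_assoc, h12]
  rw [e1, hJet, Finset.sum_mul]
  rw [← Finset.sum_fiberwise P (fun u => (Finset.univ.filter fun i => u i ≠ 0 : Finset (Fin n)))]
  refine Finset.sum_congr rfl fun J _ => ?_
  have hfil : P.filter (fun u => (Finset.univ.filter fun i => u i ≠ 0 : Finset (Fin n)) = J) =
      P.filter (Adm J) := by
    refine Finset.filter_congr fun u _ => ?_
    constructor
    · intro h i
      rw [← h]
      simp
    · intro h
      ext i
      simp only [Finset.mem_filter, Finset.mem_univ, true_and]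
      exact h i
  rw [hfil, Finset.sum_congr rfl (key J)]
  rw [← Finset.sum_fiberwise (P.filter (Adm J)) (fun u => amin m u)]
  refine Finset.sum_congr rfl fun τ _ => ?_
  have e2 : ∀ u ∈ (P.filter (Adm J)).filter (fun u => amin m u = τ),
      (M.L ^ (free A m J (amin m u)).card * (b0 J (amin m u) *
        (if ford A m e u = N then
          Polynomial.eval₂ (Int.castRingHom R) Y (wt A m J (amin m u) N u) else 0) +
        ∑ l ∈ Finset.Icc 1 N, if e * l ≤ N then
          b1 J (amin m u) * Y ^ l *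
            (if ford A m e u = N - e * l then
              Polynomial.eval₂ (Int.castRingHom R) Y (wt A m J (amin m u) N u) else 0)
          else 0)) = M.L ^ (free A m J τ).card * (b0 J τ *
        (if ford A m e u = N then
          Polynomial.eval₂ (Int.castRingHom R) Y (wt A m J τ N u) else 0) +
        ∑ l ∈ Finset.Icc 1 N, if e * l ≤ N then
          b1 J τ * Y ^ l *
            (if ford A m e u = N - e * l then
              Polynomial.eval₂ (Int.castRingHom R) Y (wt A m J τ N u) else 0)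
          else 0) := by
    intro u hu
    rw [(Finset.mem_filter.1 hu).2]
  rw [Finset.sum_congr rfl e2, ← Finset.mul_sum, Finset.sum_add_distrib, ← Finset.mul_sum,
    Finset.sum_comm, ev_cp]
  congr 2
  refine Finset.sum_congr rfl fun l _ => ?_
  split_ifs with h7
  · rw [← Finset.mul_sum, ev_cp]
  · exact Finset.sum_const_zero

end

section
open Pool.Agent.W63.MEFin
/-- **The equivariant motivic zeta function of a nondegenerate polynomial.** -/
theorem fin (h1 : S_EK0) (h2 : S_ESum1) (h3 : S_RAT) (h5 : S_CP1) {n r : ℕ}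
    (m : Fin r → Fin n → ℕ) (hr0 : 0 < r) :
    ∃ S : Finset (ℤ × ℤ),
      (∀ p ∈ S, p = (-1, 1) ∨ ∃ a : Fin n → ℕ, IsRay m a ∧ 0 < gord m a ∧
        p = (-((∑ i, a i : ℕ) : ℤ), (gord m a : ℤ))) ∧
      ∀ (k : Type) [Field k] [CharZero k] (c : Fin r → k), Mot.NonG m c →
        zetaMu (sp 0 m c 1) ∈ ratRingMu (sp 0 m c 1) S := by
  classical
  have hford : ∀ a : Fin n → ℕ, ford 0 m 1 a = gord m a := fun a => by
    unfold ford
    simp
  set A : Fin n → ℕ := 0 with hA0
  set e : ℕ := 1 with he1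
  have he : 0 < e := by rw [he1]; exact one_pos
  choose l P hl hP using fun q : Finset (Fin n) × Finset (Fin r) => h3 A m e q.1 q.2 hr0 he
  set S : Finset (ℤ × ℤ) := insert (-1, (e : ℤ)) (Finset.univ.biUnion
    fun q : Finset (Fin n) × Finset (Fin r) =>
    (l q).toFinset.image fun a => (-((∑ i, a i : ℕ) : ℤ), (ford A m e a : ℤ))) with hS
  have hS1 : ((-1 : ℤ), (e : ℤ)) ∈ S := Finset.mem_insert_self _ _
  have hS2 : ∀ q, ∀ a ∈ l q, (-((∑ i, a i : ℕ) : ℤ), (ford A m e a : ℤ)) ∈ S := fun q a ha =>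
    Finset.mem_insert_of_mem (Finset.mem_biUnion.2 ⟨q, Finset.mem_univ _,
      Finset.mem_image.2 ⟨a, List.mem_toFinset.2 ha, rfl⟩⟩)
  refine ⟨S, fun p hp => ?_, ?_⟩
  · rcases Finset.mem_insert.1 hp with rfl | hp
    · left
      rw [he1]
      rfl
    · right
      obtain ⟨q, -, hp⟩ := Finset.mem_biUnion.1 hp
      obtain ⟨a, ha, rfl⟩ := Finset.mem_image.1 hp
      obtain ⟨ha1, ha2⟩ := hl q a (List.mem_toFinset.1 ha)
      rw [hford] at ha2
      exact ⟨a, ha1, ha2, by rw [hford]⟩
  · intro k _ _ c hNon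
    set f : MvPolynomial (Fin n) k := sp A m c e with hfdef
    obtain ⟨M₀, hL₀, hM₀⟩ := h1 k f
    set M := mapEMeas M₀ (algebraMap (K0Mu f) (MKMu f)) with hM
    set Y : MKMu f := (((LuMu f)⁻¹ : (MKMu f)ˣ) : MKMu f) with hY
    have hL : M.L * Y = 1 := by
      have h : M.L = ((LuMu f : (MKMu f)ˣ) : MKMu f) := by
        change algebraMap (K0Mu f) (MKMu f) M₀.L = _
        rw [hL₀]
        rfl
      rw [h, Units.mul_inv]
    obtain ⟨b0, b1, hsum⟩ := h2 A m c e M hNon hr0 he Y hL
    set C : Finset (Fin n) × Finset (Fin r) → PowerSeries (MKMu f) := fun q =>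
      PowerSeries.map (ev f) (PowerSeries.mk fun N => cp A m e q.1 q.2 N N) with hCdef
    have hC : ∀ q, C q ∈ ratRingMu f S := fun q =>
      rat_mem _ (ford A m e) (P q) (l q) (fun a ha => ⟨(hl q a ha).2, hS2 q a ha⟩) (hP q)
    have hCc : ∀ q N, PowerSeries.coeff N (C q) =
        Polynomial.eval₂ (Int.castRingHom (MKMu f)) Y (cp A m e q.1 q.2 N N) := fun q N => by
      rw [hCdef, PowerSeries.coeff_map, PowerSeries.coeff_mk]
      rfl
    set D : Finset (Fin n) × Finset (Fin r) → PowerSeries (MKMu f) := fun q =>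
      PowerSeries.mk fun N => ∑ l ∈ Finset.Icc 1 N, if e * l ≤ N then
        Y ^ l * PowerSeries.coeff (N - e * l) (C q) else 0 with hDdef
    have hD : ∀ q, D q ∈ ratRingMu f S := by
      intro q
      have h6 := Pool.Agent.W63.MTFin.geo_sum Y (fun N => PowerSeries.coeff N (C q)) e he
      have h7 := geo_mul (f := f) (-1) (e : ℤ) (by exact_mod_cast he)
      rw [Int.toNat_natCast, zpow_neg_one] at h7
      have h8 : D q = PowerSeries.C Y * PowerSeries.X ^ e * C q * geoMu f (-1) (e : ℤ) := by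
        have h9 : PowerSeries.mk (fun N => PowerSeries.coeff N (C q)) = C q := by
          ext N
          rw [PowerSeries.coeff_mk]
        rw [h9] at h6
        rw [← h6, mul_assoc, h7, mul_one]
      rw [h8]
      exact (ratRingMu f S).mul_mem ((ratRingMu f S).mul_mem ((ratRingMu f S).mul_mem (C_mem _ _)
        ((ratRingMu f S).pow_mem (X_mem _) _)) (hC q)) (geo_mem (p := (-1, (e : ℤ))) hS1)
    set F : PowerSeries (MKMu f) := ∑ J : Finset (Fin n), ∑ τ : Finset (Fin r),
      PowerSeries.C (M.L ^ (free A m J τ).card) *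
      (PowerSeries.C (b0 J τ) * C (J, τ) + PowerSeries.C (b1 J τ) * D (J, τ)) with hF
    have hFmem : F ∈ ratRingMu f S := by
      refine (ratRingMu f S).sum_mem fun J _ => (ratRingMu f S).sum_mem fun τ _ =>
        (ratRingMu f S).mul_mem (C_mem _ _)
        ((ratRingMu f S).add_mem ((ratRingMu f S).mul_mem (C_mem _ _) (hC _))
          ((ratRingMu f S).mul_mem (C_mem _ _) (hD _)))
    have hz : zetaMu f = F - PowerSeries.C (PowerSeries.coeff 0 F) := by
      ext N
      by_cases hN : N = 0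
      · subst hN
        rw [zetaMu, PowerSeries.coeff_mk, dif_neg (lt_irrefl 0), map_sub, PowerSeries.coeff_C,
          if_pos rfl, sub_self]
      · have hN' : 0 < N := Nat.pos_of_ne_zero hN
        rw [zetaMu, PowerSeries.coeff_mk, dif_pos hN', map_sub, PowerSeries.coeff_C, if_neg hN,
          sub_zero]
        have h6 := hsum N hN'
        have h7 : algebraMap (K0Mu f) (MKMu f) (K0Mu.mk (diagVar (jetValid f N hN'))) *
            (((LuMu f) ^ (-((n * N : ℕ) : ℤ)) : (MKMu f)ˣ) : MKMu f) =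
            M.χ _ (JetE f N) (jw n N) N (jb n N) * Y ^ (n * N) := by
          rw [zpow_neg, zpow_natCast, ← inv_pow, Units.val_pow_eq_pow_val, ← hM₀]
          rfl
        rw [h7, h6, hF, map_sum]
        refine Finset.sum_congr rfl fun J _ => ?_
        rw [map_sum]
        refine Finset.sum_congr rfl fun τ _ => ?_
        rw [PowerSeries.coeff_C_mul, map_add, PowerSeries.coeff_C_mul, PowerSeries.coeff_C_mul,
          hCc, hDdef, PowerSeries.coeff_mk, Finset.mul_sum]
        congr 2
        refine Finset.sum_congr rfl fun i _ => ?_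
        split_ifs with hi
        · rw [hCc, h5 A m e J τ hr0 he N (N - e * i) (Nat.sub_le _ _), mul_assoc]
        · rw [mul_zero]
    rw [hz]
    exact (ratRingMu f S).sub_mem hFmem (C_mem _ _)

end

end Pool.Agent.W425.MM.EMot
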