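import Pool.Agent.W425.MM.Strong
import Pool.Agent.W425.MM.EMot
import Pool.Agent.W428.MOT.EShort

set_option autoImplicit false

/-! Project MM: the equivariant motivic zeta functions. -/

namespace Pool.Agent.W425.MM

open MvPolynomial Pool.Agent.H628R4.TZ Pool.Agent.H628R4.TP Pool.Agent.W425.SM
  Pool.Agent.W425.SG Pool.Agent.W422.GC Pool.Agent.W425.ND
open Pool.Agent.W428.MOT (sp zetaE LuMu InRat zetaE_eq zetaMu ratRingMu MKMu)
open Pool.Agent.W426.SM (gord ford IsRay face)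

variable {r N : ℕ}

theorem esum : EMot.S_ESum1 := EMot.eSum
  (Pool.Agent.W375.MT.EJet.main Pool.Agent.W230.ME.Free.main) Pool.Agent.W375.MT.EShift.main
  (Pool.Agent.W375.MT.ECond.main Pool.Agent.W440.MT.ord)
  (EMot.eStB Pool.Agent.W230.ME.Free.main Pool.Agent.W417.MT.Tay.main)
  (EMot.eStC Pool.Agent.W230.ME.Free.main Pool.Agent.W366.MESub.main Pool.Agent.W417.MT.Tay.main)
  (EMot.eInd Pool.Agent.W578.ME.etw)

theorem efin {n r : ℕ} (m : Fin r → Fin n → ℕ) (hr0 : 0 < r) :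
    ∃ S : Finset (ℤ × ℤ),
      (∀ p ∈ S, p = (-1, 1) ∨ ∃ a : Fin n → ℕ, IsRay m a ∧ 0 < gord m a ∧
        p = (-((∑ i, a i : ℕ) : ℤ), (gord m a : ℤ))) ∧
      ∀ (k : Type) [Field k] [CharZero k] (c : Fin r → k), Mot.NonG m c →
        InRat (LuMu (sp 0 m c 1)) S (zetaE (sp 0 m c 1)) :=
  EMot.fin Pool.Agent.W358.ME.EK0.main esum Pool.Agent.W428.MOT.sRAT
    Pool.Agent.W346.MTCp1.main m hr0

/-- **The equivariant zeta function, very general coefficients, strong form.** -/
theorem strongE (hGN : TaskGN2) (hRAY : TaskRAY) {F k : Type} [Field F] [Field k] [Algebra F k]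
    [Algebra F ℂ] [Algebra k ℂ] [IsScalarTower F k ℂ] (hr : 1 ≤ r) (v : Fin r → Fin N → ℕ)
    (c : Fin r → k) (hv : Function.Injective v) (hv0 : ∀ j, v j ≠ 0)
    (hc : AlgebraicIndependent F c) (h : MvPolynomial (Fin N) F)
    (hh : ∀ w ∈ h.support, Pool.Agent.W425.SV.NP v w) (loc : Prop) (hB : NoB1s v loc)
    (SS : Submonoid (MvPolynomial (Fin N) ℂ))
    (hSS : ∀ g ∈ SS, MvPolynomial.constantCoeff g = 1 ∧ (¬ loc → g = 1)) :
    ∃ S : Finset (ℤ × ℤ),
      (∀ p ∈ S, p.1 < 0 ∧ 0 < p.2 ∧ ∀ b : Polynomial ℂ, Pool.Agent.W591.GC.J SS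
        (spa v (fun j => algebraMap k ℂ (c j)) + MvPolynomial.map (algebraMap F ℂ) h) 1 b →
          b.eval ((p.1 : ℂ) / p.2) = 0) ∧
      InRat (LuMu (spa v c + MvPolynomial.map (algebraMap F k) h)) S
        (zetaE (spa v c + MvPolynomial.map (algebraMap F k) h)) := by
  have hne : NeZero r := ⟨by omega⟩
  obtain ⟨S, hS, hz⟩ := efin (Fin.append v (we h)) (show 0 < r + h.support.card by omega)
  have hray := hRAY v (we h) (by omega) (we_np v h hh)
  refine ⟨S, fun p hp => ?_, ?_⟩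
  · have hcC : AlgebraicIndependent F (fun j => algebraMap k ℂ (c j)) :=
      hc.map' (f := IsScalarTower.toAlgHom F k ℂ) (algebraMap k ℂ).injective
    rcases hS p hp with rfl | ⟨a, ha, hg, rfl⟩
    · refine ⟨by norm_num, by norm_num, fun b hb => ?_⟩
      have h1 : (((-1 : ℤ) : ℂ) / ((1 : ℤ) : ℂ)) = -1 := by
        push_cast
        ring
      rw [h1]
      exact (root_strong loc SS hSS v _ hv hv0 hcC h hh b hb).1
    · have hpos : 0 < ∑ i, a i := by
        by_contra hcon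
        refine ha.1 (funext fun i => ?_)
        exact Finset.sum_eq_zero_iff.1 (Nat.eq_zero_of_not_pos hcon) i (Finset.mem_univ i)
      obtain ⟨hga, hra⟩ := hray a
      refine ⟨?_, Int.natCast_pos.2 hg, fun b hb => ?_⟩
      · simp only [Left.neg_neg_iff]
        exact_mod_cast hpos
      · rw [hga] at hg ⊢
        exact cand_strong loc SS hSS v _ hv hv0 hcC h hh b hb hB a (hra ha) hg
  · have hk : CharZero k := RingHom.charZero (algebraMap k ℂ)
    have hF : CharZero F := RingHom.charZero (algebraMap F ℂ)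
    rw [sp_eq]
    exact hz k _ (nonG_strong hGN v (we h) c (wc h) (by omega) hc (we_np v h hh))

/-- **The equivariant zeta function, nondegenerate polynomials.** -/
theorem mainE {k : Type} [Field k] [Algebra k ℂ] (hr : 1 ≤ r) (v : Fin r → Fin N → ℕ)
    (c : Fin r → k) (hv : Function.Injective v)
    (hnd : Nondeg v (fun j => algebraMap k ℂ (c j))) (loc : Prop) (hB : NoB1 v loc) :
    ∃ S : Finset (ℤ × ℤ),
      (∀ p ∈ S, p.1 < 0 ∧ 0 < p.2 ∧ ∀ b : Polynomial ℂ, b.eval (-1) = 0 →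
        UnitEq loc (spa v (fun j => algebraMap k ℂ (c j))) b →
          ∃ i : ℤ, b.eval ((p.1 : ℂ) / p.2 - i) = 0) ∧
      InRat (LuMu (spa v c)) S (zetaE (spa v c)) := by
  have hne : NeZero r := ⟨by omega⟩
  obtain ⟨S, hS, hz⟩ := efin v (show 0 < r by omega)
  refine ⟨S, fun p hp => ?_, ?_⟩
  · rcases hS p hp with rfl | ⟨a, ha, hg, rfl⟩
    · refine ⟨by norm_num, by norm_num, fun b hb _ => ⟨0, ?_⟩⟩
      have h1 : (((-1 : ℤ) : ℂ) / ((1 : ℤ) : ℂ) - ((0 : ℤ) : ℂ)) = -1 := by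
        push_cast
        ring
      rw [h1, hb]
    · have hpos : 0 < ∑ i, a i := by
        by_contra hcon
        refine ha.1 (funext fun i => ?_)
        exact Finset.sum_eq_zero_iff.1 (Nat.eq_zero_of_not_pos hcon) i (Finset.mem_univ i)
      refine ⟨?_, Int.natCast_pos.2 hg, fun b hb hU => ?_⟩
      · simp only [Left.neg_neg_iff]
        exact_mod_cast hpos
      · obtain ⟨K', hK'⟩ := relAll parts loc v _ hv hnd b hU
        exact root_int a5 loc v b K' hK' hb hB a ha hg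
  · have hk : CharZero k := RingHom.charZero (algebraMap k ℂ)
    rw [spa_eq_sp]
    exact hz k _ (nonG_of Pool.Agent.W67.MM.taskB1 k k v c (by omega) hnd)

end Pool.Agent.W425.MM
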