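import Pool.Agent.W425.SV.Defs
import Pool.Agent.W425.ND.Defs
import Pool.Agent.W426.SM.Stm

set_option autoImplicit false

/-! Project MM: the motivic monodromy conjecture for nondegenerate polynomials: definitions and
statements of the parts. -/

namespace Pool.Agent.W425.MM

open MvPolynomial Pool.Agent.H628R4.TZ Pool.Agent.H628R4.TP Pool.Agent.W425.SM Pool.Agent.W425.SL
  Pool.Agent.W425.SG Pool.Agent.W425.SV Filter Topology

/-- the condition which makes the terms of weight zero vanish -/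
def KilW {r N : ℕ} (v : Fin r → Fin N → ℕ) (θ : Fin r → ℝ) (loc : Prop) (c : Fin r → ℤ) : Prop :=
  (∃ l : Fin r → ℝ, (∀ j, 0 ≤ l j) ∧ ∑ j, ((c j : ℝ) + l j) = 0 ∧
      (∀ i, ∑ j, ((c j : ℝ) + l j) * (v j i : ℝ) = 0) ∧ 0 < ∑ j, ((c j : ℝ) + l j) * θ j) ∨
    (loc ∧ ∃ l : Fin r → ℝ, (∀ j, 0 ≤ l j) ∧ ∑ j, ((c j : ℝ) + l j) = 0 ∧
      (∀ i, ∑ j, ((c j : ℝ) + l j) * (v j i : ℝ) ≤ 0) ∧
      ∃ i, ∑ j, ((c j : ℝ) + l j) * (v j i : ℝ) < 0)

/-- The algebraic relation: `RelV` with `KilW` instead of `Kil0`. -/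
def RelW {r N : ℕ} (v : Fin r → Fin N → ℕ) (θ : Fin r → ℝ) (loc : Prop) (p : Polynomial ℂ) :
    Prop :=
  ∃ (M n n0 : ℕ) (c : Fin n → Fin r → ℤ) (B : Fin n → Finset (Fin N))
    (q : Fin n → MvPolynomial (Fin r) ℂ) (c0 : Fin n0 → Fin r → ℤ)
    (q0 : Fin n0 → MvPolynomial (Fin r) ℂ),
    (∀ k, Kil1 v (c k) (B k)) ∧ (∀ k, KilW v θ loc (c0 k)) ∧
    Polynomial.aeval (∑ j, X j : MvPolynomial (Fin r) ℂ) p * ∏ j, dm M j =
      ∑ k, (∏ i ∈ B k, el v i) * ((∏ j, if c k j < 0 then X j * dm M j else 1) * q k) +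
      ∑ k, (∏ j, if c0 k j < 0 then X j * dm M j else 1) * q0 k

open Classical in
/-- the sum of the coordinates outside the range of `U` -/
noncomputable def hgt {r N N' : ℕ} (v : Fin r → Fin N → ℕ) (U : Fin N' → Fin N) (j : Fin r) : ℕ :=
  ∑ i, if i ∈ Set.range U then 0 else v j i

/-- Part A1: restriction to a coordinate subspace. -/
def TaskA1 : Prop := ∀ {r N N' : ℕ} (v : Fin r → Fin N → ℕ) (U : Fin N' → Fin N),
  Function.Injective U → ∀ (θ : Fin r → ℝ) (loc : Prop) (p : Polynomial ℂ), RelV v θ loc p →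
  ∃ C0 : ℝ, ∀ C : ℝ, (loc → C0 ≤ C) →
    RelW (fun j i => v j (U i)) (fun j => θ j - C * (hgt v U j : ℝ)) loc p

/-- Part A2: the functional kills `k * p(∑ X_j)` (as `SV.killsV`, with `RelW`). -/
def TaskA2 : Prop := ∀ {r N : ℕ} (v : Fin r → Fin N → ℕ) (θ : Fin r → ℝ) (loc : Prop)
    (p : Polynomial ℂ), RelW v θ loc p → ∀ (k : MvPolynomial (Fin r) ℂ),
    (∀ (κ : Fin r → ℕ) (i : Fin N), ∑ j, κ j * v j i = 1 →
      k ∈ Ideal.span {p : MvPolynomial (Fin r) ℂ | ∃ j, 0 < v j i ∧ p = X j + C ((κ j : ℕ) : ℂ)}) →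
    ∃ K0 s0 : ℝ, 0 ≤ K0 ∧ 0 < s0 ∧ ∀ ε > 0, ∀ ϑ > 0, ε * K0 < ϑ →
      ∀ δ : ℝ, (loc → (ε + ϑ) * K0 < -δ) → ∀ T : ℝ,
      (ε + |δ| + ϑ) * K0 < T → ∀ s : ℝ, s0 ≤ s →
      Φ (ph ε) ∅ (lm (N := N) s) (av v) (fun j => -T - δ * ∑ i, (v j i : ℝ) - ϑ * θ j)
        (k * Polynomial.aeval (∑ j, X j : MvPolynomial (Fin r) ℂ) p) = 0

/-- Part A3: the limit of the integral for a simplex `J` in a facet with inner normal vector `a`,
all entries of `a` positive. -/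
def TaskA3 : Prop := ∀ {r N : ℕ} (v : Fin r → Fin N → ℕ) (θ : Fin r → ℝ),
  LinearIndependent ℚ θ → ∀ (a : Fin N → ℕ) (g : ℕ), 0 < N → (∀ i, 0 < a i) → 0 < g →
  (∀ j, g ≤ ∑ i, a i * v j i) → ∀ J : Finset (Fin r), J.card = N →
  (∀ j ∈ J, ∑ i, a i * v j i = g) →
  LinearIndependent ℚ (fun j : J => (fun i => (v j i : ℚ) : Fin N → ℚ)) → Adm v θ J →
  ∃ c : ℂ, c ≠ 0 ∧ ∀ (K α s : ℝ), 0 < K → α ≠ 0 → 0 < s →
    Tendsto (fun m : ℕ => ∫ x, integH v θ K α s J m x ∂(MeasureTheory.Measure.pi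
      (ms (∅ : Finset (Fin (N+1)))))) atTop (𝓝 (c / ((g : ℂ) * s + ((∑ i, a i : ℕ) : ℂ))))

/-- `J` is not a `B1`-simplex: no variable occurs in exactly one of the `x ^ (v j)`, `j ∈ J`, and
there with exponent one. -/
def NB {r N : ℕ} (v : Fin r → Fin N → ℕ) (J : Finset (Fin r)) (i : Fin N) : Prop :=
  ¬ ∃ j0 ∈ J, v j0 i = 1 ∧ ∀ j ∈ J, j ≠ j0 → v j i = 0

/-- Part A4: the root, all entries of `a` positive. -/
def TaskA4 : Prop := ∀ {r N : ℕ} (v : Fin r → Fin N → ℕ) (θ : Fin r → ℝ),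
  LinearIndependent ℚ θ → ∀ (loc : Prop) (p : Polynomial ℂ), RelW v θ loc p →
  ∀ (a : Fin N → ℕ) (g : ℕ), 0 < N → (∀ i, 0 < a i) → 0 < g →
  (∀ j, g ≤ ∑ i, a i * v j i) → ∀ J : Finset (Fin r), J.card = N →
  (∀ j ∈ J, ∑ i, a i * v j i = g) →
  LinearIndependent ℚ (fun j : J => (fun i => (v j i : ℚ) : Fin N → ℚ)) → Adm v θ J →
  (∀ i, NB v J i) → p.eval (-(((∑ i, a i : ℕ) : ℂ) / g)) = 0

open Classical in
/-- The facet with inner normal vector `a` contains a simplex which is not a `B1`-simplex; in the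
local case the simplex belongs to the lower hull with respect to the sum of the coordinates `i`
with `a i = 0`. -/
def NonB {r N : ℕ} (v : Fin r → Fin N → ℕ) (loc : Prop) (a : Fin N → ℕ) : Prop :=
  ∃ J : Finset (Fin r), J.card = (Finset.univ.filter fun i => a i ≠ 0).card ∧
    (∀ j ∈ J, Pool.Agent.W426.SM.face v a j) ∧
    LinearIndependent ℚ (fun j : J => (fun i => (v j i : ℚ) : {i // a i ≠ 0} → ℚ)) ∧
    (∀ i, a i ≠ 0 → NB v J i) ∧
    (loc → ∀ l, Pool.Agent.W426.SM.face v a l → ∀ c : Fin r → ℚ, (∀ j, j ∉ J → c j = 0) →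
      (∀ i, a i ≠ 0 → ∑ j, c j * (v j i : ℚ) = (v l i : ℚ)) →
      ∑ j, c j * ∑ i, (if a i = 0 then (v j i : ℚ) else 0) ≤
        ∑ i, (if a i = 0 then (v l i : ℚ) else 0))

/-- Part A5: the root. -/
def TaskA5 : Prop := ∀ {r N : ℕ} (v : Fin r → Fin N → ℕ) (loc : Prop) (p : Polynomial ℂ),
  (∀ θ : Fin r → ℝ, LinearIndependent ℚ θ → RelV v θ loc p) → ∀ a : Fin N → ℕ,
  0 < Pool.Agent.W426.SM.gord v a → NonB v loc a →
  p.eval (-(((∑ i, a i : ℕ) : ℂ) / Pool.Agent.W426.SM.gord v a)) = 0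

/-- Part A6: if no exponent is one, all facets contain such simplices. -/
def TaskA6 : Prop := ∀ {r N : ℕ} (v : Fin r → Fin N → ℕ) (loc : Prop), 0 < r →
  (∀ j i, v j i ≠ 1) → ∀ a : Fin N → ℕ, Pool.Agent.W426.SM.IsRay v a →
  0 < Pool.Agent.W426.SM.gord v a → NonB v loc a

/-- the face polynomials have no singular points in the torus, over a field `F` -/
def NonD {F : Type} [Field F] {r N : ℕ} (v : Fin r → Fin N → ℕ) (c : Fin r → F) : Prop :=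
  ∀ (u : Fin N → ℕ) (z : Fin N → F), (∀ i, z i ≠ 0) →
    (∑ j, if Pool.Agent.W426.SM.face v u j then c j * ∏ i, z i ^ v j i else 0) = 0 →
    ∃ i, (∑ j, if Pool.Agent.W426.SM.face v u j then c j * ((v j i : F) * ∏ i, z i ^ v j i)
      else 0) ≠ 0

/-- Part B1: change of the field. -/
def TaskB1 : Prop := ∀ (k : Type) [Field k] [Algebra k ℂ] (K : Type) [Field K] [Algebra k K]
  {r N : ℕ} (v : Fin r → Fin N → ℕ) (c : Fin r → k), 0 < r →
  Pool.Agent.W425.ND.Nondeg v (fun j => algebraMap k ℂ (c j)) →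
  NonD v (fun j => algebraMap k K (c j))

end Pool.Agent.W425.MM
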