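import Pool.Agent.W425.MM.Defs

set_option autoImplicit false

/-! Project MM, very general coefficients: statements of the parts. -/

namespace Pool.Agent.W425.MM

open Pool.Agent.W425.SV (NP)
open Pool.Agent.W426.SM (gord IsRay face)

/-- Part GN1: derivations. -/
def TaskGN1 : Prop := ∀ {F L : Type} [Field F] [CharZero F] [Field L] [Algebra F L] {r : ℕ}
  (c : Fin r → L), AlgebraicIndependent F c → ∀ j0 : Fin r, ∃ D : Derivation F L L,
    D (c j0) = 1 ∧ ∀ j, j ≠ j0 → D (c j) = 0

/-- Part GN2: nondegeneracy for very general coefficients. -/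
def TaskGN2 : Prop := ∀ {F L : Type} [Field F] [CharZero F] [Field L] [Algebra F L] {r q N : ℕ}
  (v : Fin r → Fin N → ℕ) (w : Fin q → Fin N → ℕ) (c : Fin r → L) (h : Fin q → F), 0 < r →
  AlgebraicIndependent F c → (∀ l, NP v (Finsupp.equivFunOnFinite.symm (w l))) →
  NonD (Fin.append v w) (Fin.append c (fun l => algebraMap F L (h l)))

/-- Part RAY: the rays do not change if exponents in the Newton polyhedron are added. -/
def TaskRAY : Prop := ∀ {r q N : ℕ} (v : Fin r → Fin N → ℕ) (w : Fin q → Fin N → ℕ), 0 < r →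
  (∀ l, NP v (Finsupp.equivFunOnFinite.symm (w l))) → ∀ a : Fin N → ℕ,
  gord (Fin.append v w) a = gord v a ∧ (IsRay (Fin.append v w) a → IsRay v a)

end Pool.Agent.W425.MM
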