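import Pool.Agent.W571.MM.A5

set_option autoImplicit false

/-! Project MM: adapted from `Pool.Agent.W571.MM.A5`. -/

namespace Pool.Agent.W425.MM

open MvPolynomial Pool.Agent.W425.SG Pool.Agent.W425.SV Pool.Agent.W571.MM
open Pool.Agent.W426.SM (gord face)

/-- Part A5, with heights which depend only on the facet. -/
theorem a5s (hA1 : TaskA1) (hA4 : TaskA4) {r N : ℕ} (v : Fin r → Fin N → ℕ) (loc : Prop)
    (a : Fin N → ℕ) (hg : 0 < gord v a) (hNB : NonB v loc a) :
    ∃ θ : Fin r → ℝ, LinearIndependent ℚ θ ∧ ∀ p : Polynomial ℂ, RelV v θ loc p →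
      p.eval (-(((∑ i, a i : ℕ) : ℂ) / gord v a)) = 0 := by
  classical
  obtain ⟨J, hJc, hJf, hJli, hJNB, hJloc⟩ := hNB
  -- the order
  have hgle : ∀ j, gord v a ≤ ∑ i, a i * v j i := fun j => ciInf_le' _ j
  have ha : ∃ i, a i ≠ 0 := by
    by_contra hc
    push Not at hc
    have h0 : gord v a = 0 := by
      unfold gord
      rcases isEmpty_or_nonempty (Fin r) with hr | hr
      · exact Nat.iInf_of_empty _
      · have : ∀ j : Fin r, ∑ i, a i * v j i = 0 := fun j =>
          Finset.sum_eq_zero fun i _ => by rw [hc i, zero_mul]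
        simp [this]
    omega
  -- the coordinates
  obtain ⟨N', hN'⟩ : ∃ N', N' = Fintype.card {i : Fin N // a i ≠ 0} := ⟨_, rfl⟩
  have e : Fin N' ≃ {i : Fin N // a i ≠ 0} := hN' ▸ (Fintype.equivFin _).symm
  obtain ⟨U, hU⟩ : ∃ U : Fin N' → Fin N, ∀ i, U i = (e i).1 := ⟨fun i => (e i).1, fun _ => rfl⟩
  have hUinj : Function.Injective U := by
    intro i i' h
    rw [hU, hU] at h
    exact e.injective (Subtype.ext h)
  have hUa : ∀ i, a (U i) ≠ 0 := fun i => by rw [hU]; exact (e i).2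
  have hUr : ∀ i, i ∈ Set.range U ↔ a i ≠ 0 := by
    intro i
    constructor
    · rintro ⟨i', rfl⟩; exact hUa i'
    · intro h
      exact ⟨e.symm ⟨i, h⟩, by rw [hU]; simp⟩
  have hsum : ∀ f : Fin N → ℕ, (∀ i, a i = 0 → f i = 0) → ∑ i, f (U i) = ∑ i, f i := by
    intro f hf
    have h1 : ∑ i, f (U i) = ∑ i : {i : Fin N // a i ≠ 0}, f i.1 := by
      rw [← e.sum_comp]
      exact Finset.sum_congr rfl fun i _ => by rw [hU]
    rw [h1, ← Fintype.sum_subtype_add_sum_subtype (fun i : Fin N => a i ≠ 0) f]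
    have h2 : ∑ i : {i : Fin N // ¬ a i ≠ 0}, f i.1 = 0 :=
      Finset.sum_eq_zero fun i _ => hf i.1 (not_not.1 i.2)
    rw [h2, add_zero]
  have hN'pos : 0 < N' := by
    obtain ⟨i, hi⟩ := ha
    rw [hN']
    exact Fintype.card_pos_iff.2 ⟨⟨i, hi⟩⟩
  have hsv : ∀ j, ∑ i, a (U i) * v j (U i) = ∑ i, a i * v j i := fun j =>
    hsum (fun i => a i * v j i) (fun i hi => by rw [hi, zero_mul])
  have hli : LinearIndependent ℚ (fun j : J => (fun i => (v j (U i) : ℚ) : Fin N' → ℚ)) := by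
    let L : (Fin N' → ℚ) →ₗ[ℚ] ({i : Fin N // a i ≠ 0} → ℚ) :=
      LinearMap.funLeft ℚ ℚ e.symm
    refine LinearIndependent.of_comp L ?_
    have e1 : (L ∘ fun j : J => (fun i => (v j (U i) : ℚ) : Fin N' → ℚ)) =
        fun j : J => (fun i => (v j i : ℚ) : {i // a i ≠ 0} → ℚ) := by
      funext j i
      show ((v j (U (e.symm i)) : ℕ) : ℚ) = _
      rw [hU, Equiv.apply_symm_apply]
    rw [e1]
    exact hJli
  -- uniqueness of the affine combination
  have huni : ∀ l (c c' : Fin r → ℚ), Comb (fun j i => v j (U i)) J l c →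
      Comb (fun j i => v j (U i)) J l c' → c = c' := by
    rintro l c c' ⟨h1, -, h3⟩ ⟨h1', -, h3'⟩
    rw [Fintype.linearIndependent_iff] at hli
    have h4 := hli (fun j => c j - c' j) (by
      funext i
      rw [Finset.sum_apply]
      simp only [Pi.smul_apply, smul_eq_mul, Pi.zero_apply]
      have h5 : ∑ j : J, (c j - c' j) * (v j (U i) : ℚ) = ∑ j, (c j - c' j) * (v j (U i) : ℚ) := by
        rw [Finset.sum_coe_sort J (fun j => (c j - c' j) * (v j (U i) : ℚ))]
        refine Finset.sum_subset (Finset.subset_univ J) fun j _ hj => ?_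
        rw [h1 j hj, h1' j hj, sub_zero, zero_mul]
      rw [h5]
      have h6 : ∑ j, (c j - c' j) * (v j (U i) : ℚ) =
          ∑ j, c j * (v j (U i) : ℚ) - ∑ j, c' j * (v j (U i) : ℚ) := by
        rw [← Finset.sum_sub_distrib]
        exact Finset.sum_congr rfl fun j _ => by ring
      rw [h6, h3 i, h3' i, sub_self])
    funext j
    by_cases hj : j ∈ J
    · have := h4 ⟨j, hj⟩
      exact sub_eq_zero.1 this
    · rw [h1 j hj, h1' j hj]
  -- the heights
  obtain ⟨θ0, hθ0⟩ := exists_theta r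
  have hn : ∀ l, ∃ n : ℕ, (l ∈ J → n = 0) ∧ (l ∉ J → ∀ c : Fin r → ℚ,
      Comb (fun j i => v j (U i)) J l c → θ0 l - n < ∑ j, (c j : ℝ) * θ0 j) := by
    intro l
    by_cases hl : l ∈ J
    · exact ⟨0, fun _ => rfl, fun h => absurd hl h⟩
    · by_cases hc : ∃ c : Fin r → ℚ, Comb (fun j i => v j (U i)) J l c
      · obtain ⟨c, hc⟩ := hc
        obtain ⟨n, hn⟩ := exists_nat_gt (θ0 l - ∑ j, (c j : ℝ) * θ0 j)
        refine ⟨n, fun h => absurd h hl, fun _ c' hc' => ?_⟩
        rw [huni l c' c hc' hc]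
        linarith
      · exact ⟨0, fun _ => rfl, fun _ c hc' => absurd ⟨c, hc'⟩ hc⟩
  choose n hnJ hnl using hn
  have hθli : LinearIndependent ℚ fun j => θ0 j - (((n j : ℚ)) : ℝ) := li_of hθ0 fun j => (n j : ℚ)
  refine ⟨_, hθli, fun p hRel => ?_⟩
  obtain ⟨C0, hC0⟩ := hA1 v U hUinj _ loc p hRel
  obtain ⟨C, hCl, hCn⟩ : ∃ C : ℕ, (loc → C0 ≤ C) ∧ (¬ loc → C = 0) := by
    by_cases hl : loc
    · exact ⟨⌈C0⌉₊, fun _ => Nat.le_ceil C0, fun h => absurd hl h⟩
    · exact ⟨0, fun h => absurd h hl, fun _ => rfl⟩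
  have hRW := hC0 (C : ℝ) hCl
  have hθ'li : LinearIndependent ℚ fun j => θ0 j - (((n j : ℚ)) : ℝ) - (C : ℝ) * (hgt v U j : ℝ) := by
    have := li_of hθ0 fun j => (n j : ℚ) + (C : ℚ) * (hgt v U j : ℚ)
    convert this using 2 with j
    push_cast
    ring
  -- the heights of the coordinates outside the range
  have hhgt : ∀ j, ((hgt v U j : ℕ) : ℚ) = ∑ i, (if a i = 0 then (v j i : ℚ) else 0) := by
    intro j
    unfold hgt
    push_cast
    refine Finset.sum_congr rfl fun i _ => ?_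
    by_cases hi : a i = 0
    · have h1 : i ∉ Set.range U := fun h => (hUr i).1 h hi
      rw [if_neg h1, if_pos hi]
    · have h1 : i ∈ Set.range U := (hUr i).2 hi
      rw [if_pos h1, if_neg hi]
  have hAdm : Adm (fun j i => v j (U i)) (fun j => θ0 j - (((n j : ℚ)) : ℝ) -
      (C : ℝ) * (hgt v U j : ℝ)) J := by
    intro l hl c hc
    have h1 := hnl l hl c hc
    obtain ⟨hc1, hc2, hc3⟩ := hc
    have h2 : ∑ j, (c j : ℝ) * (θ0 j - (((n j : ℚ)) : ℝ) - (C : ℝ) * (hgt v U j : ℝ)) =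
        ∑ j, (c j : ℝ) * θ0 j - (C : ℝ) * ∑ j, (c j : ℝ) * (hgt v U j : ℝ) := by
      rw [Finset.mul_sum, ← Finset.sum_sub_distrib]
      refine Finset.sum_congr rfl fun j _ => ?_
      by_cases hj : j ∈ J
      · rw [hnJ j hj]
        push_cast
        ring
      · rw [hc1 j hj]
        simp
    show θ0 l - (((n l : ℚ)) : ℝ) - (C : ℝ) * (hgt v U l : ℝ) <
      ∑ j, (c j : ℝ) * (θ0 j - (((n j : ℚ)) : ℝ) - (C : ℝ) * (hgt v U j : ℝ))
    rw [h2]
    have h3 : (C : ℝ) * ∑ j, (c j : ℝ) * (hgt v U j : ℝ) ≤ (C : ℝ) * (hgt v U l : ℝ) := by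
      by_cases hloc : loc
      · refine mul_le_mul_of_nonneg_left ?_ (Nat.cast_nonneg C)
        have hfl : face v a l := by
          have h4 : ((∑ i, a i * v l i : ℕ) : ℚ) = (gord v a : ℚ) := by
            rw [← hsv l]
            push_cast
            have h5 : ∀ i, (a (U i) : ℚ) * (v l (U i) : ℚ) =
                ∑ j, c j * ((a (U i) : ℚ) * (v j (U i) : ℚ)) := by
              intro i
              rw [← hc3 i, Finset.mul_sum]
              exact Finset.sum_congr rfl fun j _ => by ring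
            rw [Finset.sum_congr rfl fun i _ => h5 i, Finset.sum_comm]
            have h6 : ∀ j, ∑ i, c j * ((a (U i) : ℚ) * (v j (U i) : ℚ)) = c j * (gord v a : ℚ) := by
              intro j
              rw [← Finset.mul_sum]
              by_cases hj : j ∈ J
              · have h7 : ((∑ i, a (U i) * v j (U i) : ℕ) : ℚ) = (gord v a : ℚ) := by
                  rw [hsv j, hJf j hj]
                push_cast at h7
                rw [h7]
              · rw [hc1 j hj, zero_mul, zero_mul]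
            rw [Finset.sum_congr rfl fun j _ => h6 j, ← Finset.sum_mul, hc2, one_mul]
          exact_mod_cast h4
        have h8 := hJloc hloc l hfl c hc1 (fun i hi => by
          obtain ⟨i', rfl⟩ := (hUr i).2 hi
          exact hc3 i')
        simp only [← hhgt] at h8
        have h9 : ((∑ j, c j * (hgt v U j : ℚ) : ℚ) : ℝ) ≤ ((hgt v U l : ℚ) : ℝ) := by
          exact_mod_cast h8
        push_cast at h9
        exact h9
      · rw [hCn hloc]
        simp
    have h10 : (((n l : ℚ)) : ℝ) = (n l : ℝ) := by push_cast; rfl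
    rw [h10]
    linarith
  have hfin := hA4 (fun j i => v j (U i)) (fun j => θ0 j - (((n j : ℚ)) : ℝ) -
      (C : ℝ) * (hgt v U j : ℝ)) hθ'li loc p hRW (fun i => a (U i)) (gord v a) hN'pos
      (fun i => Nat.pos_of_ne_zero (hUa i)) hg (fun j => by rw [hsv j]; exact hgle j) J
      (by rw [hJc, hN', Fintype.card_subtype]) (fun j hj => by rw [hsv j]; exact hJf j hj)
      hli hAdm (fun i => hJNB (U i) (hUa i))
  have hsa : ∑ i, a (U i) = ∑ i, a i := hsum a fun i hi => hi
  rw [hsa] at hfin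
  exact hfin

end Pool.Agent.W425.MM
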