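import Pool.Agent.W425.MM.Fin
import Pool.Agent.W425.MM.A5s
import Pool.Agent.W425.MM.Defs2
import Pool.Agent.W422.GC.Up

set_option autoImplicit false

/-! Project MM: very general coefficients, the strong form. -/

namespace Pool.Agent.W425.MM

open MvPolynomial Pool.Agent.H628R4.TZ Pool.Agent.H628R4.TP Pool.Agent.W425.SM
  Pool.Agent.W425.SG Pool.Agent.W422.GC Pool.Agent.W425.ND
open Pool.Agent.W428.MOT (K0 MK Pt Constr cls Lu ratRing sp amin gbar dgbar cb Jet arc)
open Pool.Agent.W375.MG (zetaG zetaW zetaOrd Good JetG good_one good_units zetaW_eq zetaOrd_eq)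
open Pool.Agent.W426.SM (gord ford IsRay face)

variable {r N : ℕ}

/-- The candidate `-|a| / N_a` is `-1`, or it agrees with the candidate of a facet which is not a
`B1`-facet. -/
def NoB1s (v : Fin r → Fin N → ℕ) (loc : Prop) : Prop :=
  ∀ a : Fin N → ℕ, IsRay v a → 0 < gord v a → ∑ i, a i = gord v a ∨
    ∃ a' : Fin N → ℕ, 0 < gord v a' ∧ NonB v loc a' ∧
      ((∑ i, a i : ℕ) : ℚ) / gord v a = ((∑ i, a' i : ℕ) : ℚ) / gord v a'

/-- nondegeneracy over the algebraic closure of `K` -/
theorem nonG_of_nonD {K : Type} [Field K] (v : Fin r → Fin N → ℕ) (c : Fin r → K)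
    (h1 : NonD v (fun j => algebraMap K (AlgebraicClosure K) (c j))) : Mot.NonG v c := by
  classical
  intro u z hz h0
  set z' : Fin N → AlgebraicClosure K := fun i => if ∃ j ∈ amin v u, v j i ≠ 0 then z i else 1
    with hz'
  have hz'0 : ∀ i, z' i ≠ 0 := by
    intro i
    rw [hz']
    by_cases h : ∃ j ∈ amin v u, v j i ≠ 0
    · simp only [if_pos h]
      exact hz i h
    · simp only [if_neg h]
      exact one_ne_zero
  have hmem : ∀ j, j ∈ amin v u ↔ face v u j := fun j => by
    simp [amin, face]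
  have hpow : ∀ j, j ∈ amin v u → ∏ i, z' i ^ v j i = ∏ i, z i ^ v j i := by
    intro j hj
    refine Finset.prod_congr rfl fun i _ => ?_
    by_cases h : v j i = 0
    · rw [h, pow_zero, pow_zero]
    · rw [hz']
      simp only [if_pos (show ∃ j ∈ amin v u, v j i ≠ 0 from ⟨j, hj, h⟩)]
  have hcb : ∀ j, cb c j = algebraMap K (AlgebraicClosure K) (c j) := fun j => rfl
  have hg0 : (∑ j, if face v u j then algebraMap K (AlgebraicClosure K) (c j) *
      ∏ i, z' i ^ v j i else 0) = 0 := by
    refine Eq.trans ?_ h0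
    unfold gbar
    rw [← Finset.sum_filter]
    refine Finset.sum_congr ?_ fun j hj => ?_
    · ext j
      simp [hmem]
    · rw [hcb, hpow j ((hmem j).2 (Finset.mem_filter.1 hj).2)]
  obtain ⟨i, hi⟩ := h1 u z' hz'0 hg0
  refine ⟨i, fun hd => hi ?_⟩
  have h2 : (∑ j, if face v u j then algebraMap K (AlgebraicClosure K) (c j) *
      ((v j i : AlgebraicClosure K) * ∏ i, z' i ^ v j i) else 0) =
      z i * dgbar v (cb c) (amin v u) i z := by
    rw [dgbar, Finset.mul_sum, ← Finset.sum_filter]
    refine Finset.sum_congr ?_ fun j hj => ?_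
    · ext j
      simp [hmem]
    · have hj' := (hmem j).2 (Finset.mem_filter.1 hj).2
      rw [hcb, hpow j hj']
      by_cases h : v j i = 0
      · rw [h]
        simp
      · have h3 : ∏ i', z i' ^ v j i' = z i * ∏ i', z i' ^ (v j i' - if i' = i then 1 else 0) := by
          rw [← Finset.mul_prod_erase Finset.univ (fun i' => z i' ^ v j i') (Finset.mem_univ i),
            ← Finset.mul_prod_erase Finset.univ
              (fun i' => z i' ^ (v j i' - if i' = i then 1 else 0)) (Finset.mem_univ i), ← mul_assoc]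
          congr 1
          · simp only [if_true]
            rw [← pow_succ', Nat.sub_add_cancel (Nat.pos_of_ne_zero h)]
          · refine Finset.prod_congr rfl fun i' hi' => ?_
            rw [if_neg (Finset.ne_of_mem_erase hi'), Nat.sub_zero]
        rw [h3]
        ring
  rw [h2, hd, mul_zero]

/-- nondegeneracy for very general coefficients -/
theorem nonG_strong (hGN : TaskGN2) {F K : Type} [Field F] [CharZero F] [Field K] [Algebra F K]
    {q : ℕ} (v : Fin r → Fin N → ℕ) (w : Fin q → Fin N → ℕ) (c : Fin r → K) (h : Fin q → F)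
    (hr : 0 < r) (hc : AlgebraicIndependent F c)
    (hw : ∀ l, Pool.Agent.W425.SV.NP v (Finsupp.equivFunOnFinite.symm (w l))) :
    Mot.NonG (Fin.append v w) (Fin.append c (fun l => algebraMap F K (h l))) := by
  refine nonG_of_nonD _ _ ?_
  have h1 := hGN (F := F) (L := AlgebraicClosure K) v w
    (fun j => algebraMap K (AlgebraicClosure K) (c j)) h hr
    (hc.map' (f := IsScalarTower.toAlgHom F K (AlgebraicClosure K))
      (algebraMap K (AlgebraicClosure K)).injective) hw
  have h2 : (fun j => algebraMap K (AlgebraicClosure K)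
      (Fin.append c (fun l => algebraMap F K (h l)) j)) =
      Fin.append (fun j => algebraMap K (AlgebraicClosure K) (c j))
        (fun l => algebraMap F (AlgebraicClosure K) (h l)) := by
    funext j
    refine Fin.addCases (fun j => ?_) (fun l => ?_) j
    · rw [Fin.append_left, Fin.append_left]
    · rw [Fin.append_right, Fin.append_right]
      exact (IsScalarTower.algebraMap_apply F K (AlgebraicClosure K) (h l)).symm
  rw [h2]
  exact h1

/-- the exponents of `h` -/
noncomputable def we {F : Type} [Field F] (h : MvPolynomial (Fin N) F) (l : Fin h.support.card) :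
    Fin N → ℕ := fun i => (h.support.equivFin.symm l).1 i

/-- the coefficients of `h` -/
noncomputable def wc {F : Type} [Field F] (h : MvPolynomial (Fin N) F) (l : Fin h.support.card) :
    F := coeff (h.support.equivFin.symm l).1 h

lemma h_eq {F K : Type} [Field F] [Field K] (φ : F →+* K) (h : MvPolynomial (Fin N) F) :
    MvPolynomial.map φ h = ∑ l, C (φ (wc h l)) * ∏ i, X i ^ we h l i := by
  conv_lhs => rw [h.as_sum, map_sum]
  rw [← Finset.sum_coe_sort h.support, ← h.support.equivFin.symm.sum_comp]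
  refine Finset.sum_congr rfl fun l _ => ?_
  rw [map_monomial, MvPolynomial.monomial_eq]
  congr 1
  rw [Finsupp.prod_fintype _ _ (fun _ => pow_zero _)]
  rfl

lemma sp_eq {F K : Type} [Field F] [Field K] (φ : F →+* K) (v : Fin r → Fin N → ℕ)
    (c : Fin r → K) (h : MvPolynomial (Fin N) F) :
    spa v c + MvPolynomial.map φ h =
      sp 0 (Fin.append v (we h)) (Fin.append c (fun l => φ (wc h l))) 1 := by
  unfold sp
  rw [Fin.sum_univ_add, h_eq]
  simp only [Fin.append_left, Fin.append_right, Pi.zero_apply, pow_zero, Finset.prod_const_one,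
    one_mul, pow_one]
  rfl

lemma we_np {F : Type} [Field F] (v : Fin r → Fin N → ℕ) (h : MvPolynomial (Fin N) F)
    (hh : ∀ w ∈ h.support, Pool.Agent.W425.SV.NP v w) (l : Fin h.support.card) :
    Pool.Agent.W425.SV.NP v (Finsupp.equivFunOnFinite.symm (we h l)) := by
  have h1 : Finsupp.equivFunOnFinite.symm (we h l) = (h.support.equivFin.symm l).1 := by
    ext i
    rfl
  rw [h1]
  exact hh _ (h.support.equivFin.symm l).2

open Polynomial in
theorem root_strong {F : Type} [Field F] [Algebra F ℂ] [NeZero r] (loc : Prop)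
    (S : Submonoid (MvPolynomial (Fin N) ℂ))
    (hS : ∀ g ∈ S, MvPolynomial.constantCoeff g = 1 ∧ (¬ loc → g = 1))
    (v : Fin r → Fin N → ℕ) (a : Fin r → ℂ)
    (hv : Function.Injective v) (hv0 : ∀ j, v j ≠ 0) (ha : AlgebraicIndependent F a)
    (h : MvPolynomial (Fin N) F) (hh : ∀ w ∈ h.support, Pool.Agent.W425.SV.NP v w)
    (b : ℂ[X])
    (hb : Pool.Agent.W591.GC.J S (sparse v a + MvPolynomial.map (algebraMap F ℂ) h) 1 b) :
    b.eval (-1) = 0 ∧ ∀ u : Fin N → ℕ, 0 < gord v u → NonB v loc u →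
      b.eval (-(((∑ i, u i : ℕ) : ℂ) / gord v u)) = 0 := by
  by_cases hb0 : b = 0
  · subst hb0
    exact ⟨Polynomial.eval_zero, fun _ _ _ => Polynomial.eval_zero⟩
  constructor
  · obtain ⟨θ, hθ⟩ := exists_heights r
    obtain ⟨p, q, hbp, hp⟩ := rel_of_unit loc S hS v a hv hv0 ha h hh θ hθ b hb0 hb
    rw [hbp]
    simp
  · intro u hg hNB
    obtain ⟨θ, hθ, hR⟩ := a5s Pool.Agent.W688.MM.a1
      (a4 Pool.Agent.W318.MM.a2 Pool.Agent.W554.MM.taskA3) v loc u hg hNB
    obtain ⟨p, q, hbp, hp⟩ := rel_of_unit loc S hS v a hv hv0 ha h hh θ hθ b hb0 hb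
    rw [hbp, Polynomial.eval_mul, Polynomial.eval_mul, hR p hp, mul_zero, zero_mul]

open Polynomial in
/-- the candidate poles are roots -/
theorem cand_strong {F : Type} [Field F] [Algebra F ℂ] [NeZero r] (loc : Prop)
    (S : Submonoid (MvPolynomial (Fin N) ℂ))
    (hS : ∀ g ∈ S, MvPolynomial.constantCoeff g = 1 ∧ (¬ loc → g = 1))
    (v : Fin r → Fin N → ℕ) (a : Fin r → ℂ)
    (hv : Function.Injective v) (hv0 : ∀ j, v j ≠ 0) (ha : AlgebraicIndependent F a)
    (h : MvPolynomial (Fin N) F) (hh : ∀ w ∈ h.support, Pool.Agent.W425.SV.NP v w)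
    (b : ℂ[X])
    (hb : Pool.Agent.W591.GC.J S (sparse v a + MvPolynomial.map (algebraMap F ℂ) h) 1 b)
    (hB : NoB1s v loc) (u : Fin N → ℕ) (hu : IsRay v u) (hg : 0 < gord v u) :
    b.eval (((-((∑ i, u i : ℕ) : ℤ) : ℤ) : ℂ) / ((gord v u : ℤ) : ℂ)) = 0 := by
  obtain ⟨h1, h2⟩ := root_strong loc S hS v a hv hv0 ha h hh b hb
  have hgC : ((gord v u : ℕ) : ℂ) ≠ 0 := by exact_mod_cast hg.ne'
  rcases hB u hu hg with ht | ⟨a', hg', hN, hz⟩
  · have h3 : ((-((∑ i, u i : ℕ) : ℤ) : ℤ) : ℂ) / ((gord v u : ℤ) : ℂ) = -1 := by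
      rw [ht]
      push_cast
      field_simp
    rw [h3, h1]
  · have h3 : ((∑ i, u i : ℕ) : ℂ) / gord v u = ((∑ i, a' i : ℕ) : ℂ) / gord v a' := by
      have := congrArg (fun q : ℚ => (q : ℂ)) hz
      push_cast at this ⊢
      exact this
    have h4 : ((-((∑ i, u i : ℕ) : ℤ) : ℤ) : ℂ) / ((gord v u : ℤ) : ℂ) =
        -(((∑ i, a' i : ℕ) : ℂ) / gord v a') := by
      rw [← h3]
      push_cast
      ring
    rw [h4]
    exact h2 a' hg' hN

/-- **The strong form for very general coefficients.** -/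
theorem strong (hGN : TaskGN2) (hRAY : TaskRAY) {F k : Type} [Field F] [Field k] [Algebra F k]
    [Algebra F ℂ] [Algebra k ℂ] [IsScalarTower F k ℂ] (hr : 1 ≤ r) (v : Fin r → Fin N → ℕ)
    (c : Fin r → k) (hv : Function.Injective v) (hv0 : ∀ j, v j ≠ 0)
    (hc : AlgebraicIndependent F c) (h : MvPolynomial (Fin N) F)
    (hh : ∀ w ∈ h.support, Pool.Agent.W425.SV.NP v w) (loc : Prop) (hB : NoB1s v loc)
    (SS : Submonoid (MvPolynomial (Fin N) ℂ))
    (hSS : ∀ g ∈ SS, MvPolynomial.constantCoeff g = 1 ∧ (¬ loc → g = 1)) :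
    ∃ S : Finset (ℤ × ℤ),
      (∀ p ∈ S, p.1 < 0 ∧ 0 < p.2 ∧ ∀ b : Polynomial ℂ, Pool.Agent.W591.GC.J SS
        (spa v (fun j => algebraMap k ℂ (c j)) + MvPolynomial.map (algebraMap F ℂ) h) 1 b →
          b.eval ((p.1 : ℂ) / p.2) = 0) ∧
      (∀ (K : Type) [Field K] [Algebra k K] (W : Set (Pt K (Fin N)))
        (E : Set (AlgebraicClosure K)), Constr W → Good E →
        zetaG (spa v (fun j => algebraMap k K (c j)) +
          MvPolynomial.map ((algebraMap k K).comp (algebraMap F k)) h) W E ∈ ratRing K S) := by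
  have hne : NeZero r := ⟨by omega⟩
  obtain ⟨S, hS, hz⟩ := Mot.fin (Fin.append v (we h)) (show 0 < r + h.support.card by omega)
  have hray := hRAY v (we h) (by omega) (we_np v h hh)
  refine ⟨S, fun p hp => ?_, fun K _ _ W E hW hE => ?_⟩
  · have hcC : AlgebraicIndependent F (fun j => algebraMap k ℂ (c j)) :=
      hc.map' (f := IsScalarTower.toAlgHom F k ℂ) (algebraMap k ℂ).injective
    rcases hS p hp with rfl | ⟨a, ha, hg, rfl⟩
    · refine ⟨by norm_num, by norm_num, fun b hb => ?_⟩
      have h1 : (((-1 : ℤ) : ℂ) / ((1 : ℤ) : ℂ)) = -1 := by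
        push_cast
        ring
      rw [h1]
      exact (root_strong loc SS hSS v _ hv hv0 hcC h hh b hb).1
    · have hpos : 0 < ∑ i, a i := by
        by_contra hcon
        refine ha.1 (funext fun i => ?_)
        exact Finset.sum_eq_zero_iff.1 (Nat.eq_zero_of_not_pos hcon) i (Finset.mem_univ i)
      obtain ⟨hga, hra⟩ := hray a
      refine ⟨?_, Int.natCast_pos.2 hg, fun b hb => ?_⟩
      · simp only [Left.neg_neg_iff]
        exact_mod_cast hpos
      · rw [hga] at hg ⊢
        exact cand_strong loc SS hSS v _ hv hv0 hcC h hh b hb hB a (hra ha) hg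
  · have hk : CharZero k := RingHom.charZero (algebraMap k ℂ)
    have hF : CharZero F := RingHom.charZero (algebraMap F ℂ)
    have hK : CharZero K := charZero_of_injective_algebraMap (algebraMap k K).injective
    letI : Algebra F K := ((algebraMap k K).comp (algebraMap F k)).toAlgebra
    haveI : IsScalarTower F k K := IsScalarTower.of_algebraMap_eq fun _ => rfl
    have hcK : AlgebraicIndependent F (fun j => algebraMap k K (c j)) :=
      hc.map' (f := IsScalarTower.toAlgHom F k K) (algebraMap k K).injective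
    rw [sp_eq]
    exact hz K _ (nonG_strong hGN v (we h) (fun j => algebraMap k K (c j)) (wc h) (by omega) hcK
      (we_np v h hh)) W E hW hE

end Pool.Agent.W425.MM
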