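import Pool.Agent.W425.MM.Defs
import Pool.Agent.W425.MM.Mot
import Pool.Agent.W425.ND.Tw

set_option autoImplicit false

/-! Project MM: assembly. -/

namespace Pool.Agent.W425.MM

open MvPolynomial Pool.Agent.H628R4.TZ Pool.Agent.H628R4.TP Pool.Agent.W425.SM
  Pool.Agent.W425.SG Pool.Agent.W422.GC Pool.Agent.W425.ND
open Pool.Agent.W428.MOT (K0 MK Pt Constr cls Lu ratRing sp amin gbar dgbar cb)
open Pool.Agent.W375.MG (zetaG zetaW zetaOrd Good JetG)
open Pool.Agent.W426.SM (gord ford IsRay face)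

variable {r N : ℕ}

open Polynomial in
/-- The relation with very general coefficients, for all heights. -/
theorem relAll (T : Parts) [NeZero r] (loc : Prop) (v : Fin r → Fin N → ℕ) (a : Fin r → ℂ)
    (hv : Function.Injective v) (hnd : Nondeg v a) (b : ℂ[X]) (hb : UnitEq loc (spa v a) b) :
    ∃ K : ℕ, ∀ θ : Fin r → ℝ, LinearIndependent ℚ θ →
      Pool.Agent.W425.SV.RelV v θ loc (prodb b K) := by
  obtain ⟨K, hK⟩ := T.kou r N v a hnd
  obtain ⟨a', ha', hind⟩ := T.exp r a
  have hgen := T.nak r N v a K hK a' ha'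
  have hrel := DefThm.def_of T.cn T.alg T.brk T.rep1 T.rep2 loc v (spa v a') a' rfl
    (by rw [spa_map v a' a ha']; exact spa_ne_zero hv a hnd) K hgen (prodb b K) (by
      intro m c hm _
      rw [spa_map v a' a ha']
      exact T.spec N loc (spa v a) b hb K m hm (monomial c 1))
  obtain ⟨A, hA, hrel2⟩ := T.desc r N loc v a' (prodb b K) hind hrel
  exact ⟨K, fun θ hθ => T.v2e r N (NeZero.ne r) loc v A (prodb b K) θ hθ hA hrel2⟩

/-- The candidate `-|a| / N_a` is an integer, or it agrees modulo `ℤ` with the candidate of a facet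
which is not a `B1`-facet. -/
def NoB1 (v : Fin r → Fin N → ℕ) (loc : Prop) : Prop :=
  ∀ a : Fin N → ℕ, IsRay v a → 0 < gord v a → gord v a ∣ ∑ i, a i ∨
    ∃ a' : Fin N → ℕ, 0 < gord v a' ∧ NonB v loc a' ∧ ∃ z : ℤ,
      ((∑ i, a i : ℕ) : ℚ) / gord v a = ((∑ i, a' i : ℕ) : ℚ) / gord v a' + z

open Polynomial in
theorem root_int (h5 : TaskA5) (loc : Prop) (v : Fin r → Fin N → ℕ) (b : ℂ[X]) (K : ℕ)
    (hR : ∀ θ : Fin r → ℝ, LinearIndependent ℚ θ →
      Pool.Agent.W425.SV.RelV v θ loc (prodb b K)) (hb1 : b.eval (-1) = 0)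
    (hB : NoB1 v loc) (a : Fin N → ℕ) (ha : IsRay v a) (hg : 0 < gord v a) :
    ∃ i : ℤ, b.eval (((-((∑ i, a i : ℕ) : ℤ) : ℤ) : ℂ) / ((gord v a : ℤ) : ℂ) - i) = 0 := by
  have hgC : ((gord v a : ℕ) : ℂ) ≠ 0 := by exact_mod_cast hg.ne'
  rcases hB a ha hg with ⟨t, ht⟩ | ⟨a', hg', hN, z, hz⟩
  · refine ⟨-(t : ℤ) + 1, ?_⟩
    have h1 : ((-((∑ i, a i : ℕ) : ℤ) : ℤ) : ℂ) / ((gord v a : ℤ) : ℂ) - ((-(t : ℤ) + 1 : ℤ) : ℂ) =
        -1 := by
      rw [ht]
      push_cast
      field_simp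
      ring
    rw [h1, hb1]
  · have hg'C : ((gord v a' : ℕ) : ℂ) ≠ 0 := by exact_mod_cast hg'.ne'
    have h1 := h5 v loc (prodb b K) hR a' hg' hN
    rw [prodb_eval, Finset.prod_eq_zero_iff] at h1
    obtain ⟨i, -, hi⟩ := h1
    refine ⟨(i : ℤ) - z, ?_⟩
    have h2 : ((∑ i, a i : ℕ) : ℂ) / gord v a = ((∑ i, a' i : ℕ) : ℂ) / gord v a' + z := by
      have := congrArg (fun q : ℚ => (q : ℂ)) hz
      push_cast at this ⊢
      exact this
    have h3 : ((-((∑ i, a i : ℕ) : ℤ) : ℤ) : ℂ) / ((gord v a : ℤ) : ℂ) - (((i : ℤ) - z : ℤ) : ℂ) =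
        -(((∑ i, a' i : ℕ) : ℂ) / gord v a') - i := by
      push_cast at h2 ⊢
      rw [neg_div, h2]
      ring
    rw [h3]
    exact hi

/-- nondegeneracy over the algebraic closure of `K` -/
theorem nonG_of (hB1 : TaskB1) (k K : Type) [Field k] [Algebra k ℂ] [Field K] [Algebra k K]
    (v : Fin r → Fin N → ℕ) (c : Fin r → k) (hr : 0 < r)
    (hnd : Nondeg v (fun j => algebraMap k ℂ (c j))) :
    Mot.NonG v (fun j => algebraMap k K (c j)) := by
  classical
  intro u z hz h0
  have h1 := hB1 k (AlgebraicClosure K) v c hr hnd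
  set z' : Fin N → AlgebraicClosure K := fun i => if ∃ j ∈ amin v u, v j i ≠ 0 then z i else 1
    with hz'
  have hz'0 : ∀ i, z' i ≠ 0 := by
    intro i
    rw [hz']
    by_cases h : ∃ j ∈ amin v u, v j i ≠ 0
    · simp only [if_pos h]
      exact hz i h
    · simp only [if_neg h]
      exact one_ne_zero
  have hmem : ∀ j, j ∈ amin v u ↔ face v u j := fun j => by
    simp [amin, face]
  have hpow : ∀ j, j ∈ amin v u → ∏ i, z' i ^ v j i = ∏ i, z i ^ v j i := by
    intro j hj
    refine Finset.prod_congr rfl fun i _ => ?_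
    by_cases h : v j i = 0
    · rw [h, pow_zero, pow_zero]
    · rw [hz']
      simp only [if_pos (show ∃ j ∈ amin v u, v j i ≠ 0 from ⟨j, hj, h⟩)]
  have hcb : ∀ j, cb (fun j => algebraMap k K (c j)) j = algebraMap k (AlgebraicClosure K) (c j) := by
    intro j
    unfold cb
    exact (IsScalarTower.algebraMap_apply k K (AlgebraicClosure K) (c j)).symm
  have hg0 : (∑ j, if face v u j then algebraMap k (AlgebraicClosure K) (c j) *
      ∏ i, z' i ^ v j i else 0) = 0 := by
    refine Eq.trans ?_ h0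
    unfold gbar
    rw [← Finset.sum_filter]
    refine Finset.sum_congr ?_ fun j hj => ?_
    · ext j
      simp [hmem]
    · rw [hcb, hpow j ((hmem j).2 (Finset.mem_filter.1 hj).2)]
  obtain ⟨i, hi⟩ := h1 u z' hz'0 hg0
  refine ⟨i, fun hd => hi ?_⟩
  have h2 : (∑ j, if face v u j then algebraMap k (AlgebraicClosure K) (c j) *
      ((v j i : AlgebraicClosure K) * ∏ i, z' i ^ v j i) else 0) =
      z i * dgbar v (cb (fun j => algebraMap k K (c j))) (amin v u) i z := by
    rw [dgbar, Finset.mul_sum, ← Finset.sum_filter]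
    refine Finset.sum_congr ?_ fun j hj => ?_
    · ext j
      simp [hmem]
    · have hj' := (hmem j).2 (Finset.mem_filter.1 hj).2
      rw [hcb, hpow j hj']
      by_cases h : v j i = 0
      · rw [h]
        simp
      · have h3 : ∏ i', z i' ^ v j i' = z i * ∏ i', z i' ^ (v j i' - if i' = i then 1 else 0) := by
          rw [← Finset.mul_prod_erase Finset.univ (fun i' => z i' ^ v j i') (Finset.mem_univ i),
            ← Finset.mul_prod_erase Finset.univ
              (fun i' => z i' ^ (v j i' - if i' = i then 1 else 0)) (Finset.mem_univ i), ← mul_assoc]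
          congr 1
          · simp only [if_true]
            rw [← pow_succ', Nat.sub_add_cancel (Nat.pos_of_ne_zero h)]
          · refine Finset.prod_congr rfl fun i' hi' => ?_
            rw [if_neg (Finset.ne_of_mem_erase hi'), Nat.sub_zero]
        rw [h3]
        ring
  rw [h2, hd, mul_zero]

lemma spa_eq_sp {K : Type} [Field K] (v : Fin r → Fin N → ℕ) (c : Fin r → K) :
    spa v c = sp 0 v c 1 := by
  unfold spa sp
  simp

end Pool.Agent.W425.MM
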